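import Pool.Agent.Lib.MP_c789b2_co.Growth

/-!
Comparison of the maximal degree with the maximal number of divisors.
-/

namespace Pool.Agent.Lib.MP_c789b2_co

open Finset Filter

/-! ### Pairing primes -/

lemma tau_prod_pow (S : Finset ℕ) (e : ℕ → ℕ) (hS : ∀ p ∈ S, p.Prime) :
    (∏ p ∈ S, p ^ e p).divisors.card = ∏ p ∈ S, (e p + 1) := by
  classical
  induction S using Finset.induction_on with
  | empty => simp
  | insert p S hp ih =>
    have hpp := hS p (mem_insert_self _ _)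
    rw [prod_insert hp, prod_insert hp, Nat.Coprime.card_divisors_mul,
      ih fun q hq => hS q (mem_insert_of_mem hq), Nat.divisors_prime_pow hpp, card_map, card_range]
    apply Nat.Coprime.prod_right
    intro q hq
    apply Nat.Coprime.pow
    exact (Nat.coprime_primes hpp (hS q (mem_insert_of_mem hq))).2 (by rintro rfl; exact hp hq)

lemma mul_pow_inj {p v v' k k' : ℕ} (hp : p.Prime) (hv : Nat.Coprime v p) (hv' : Nat.Coprime v' p)
    (h : v * p ^ k = v' * p ^ k') : v = v' ∧ k = k' := by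
  have h1 : v ∣ v' := (hv.pow_right k').dvd_of_dvd_mul_right ⟨p ^ k, h.symm⟩
  have h2 : v' ∣ v := (hv'.pow_right k).dvd_of_dvd_mul_right ⟨p ^ k', h⟩
  have h3 := Nat.dvd_antisymm h1 h2
  subst h3
  refine ⟨rfl, ?_⟩
  have hv0 : 0 < v := by
    rcases Nat.eq_zero_or_pos v with rfl | h0
    · exact absurd (by simpa using hv) hp.one_lt.ne'
    · exact h0
  exact Nat.pow_right_injective hp.two_le (Nat.eq_of_mul_eq_mul_left hv0 h)

lemma pairing (y : ℝ) (e : ℕ → ℕ) (N : ℕ) : ∀ (S : Finset ℕ), S.card = N →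
    (∀ p ∈ S, p.Prime) → (∀ p ∈ S, ∀ q ∈ S, p ≤ q → e q ≤ e p) → ∀ (E : ℕ) (l : ℝ), 0 < l →
    l ≤ y → (∀ p ∈ S, e p ≤ E ∧ l ≤ p ∧ (p : ℝ) ≤ y) →
    ∃ (m1 m2 : ℕ) (R : Finset (ℕ × ℕ)), Nat.Coprime m1 m2 ∧ m1 * m2 ∣ ∏ p ∈ S, p ^ e p ∧
      (m1, m2) ∈ R ∧
      (∀ z ∈ R, z.1 ∣ m1 ∧ z.2 ∣ m2 ∧ z.1 ≤ z.2 ∧ (z.2 : ℝ) ≤ (y / l) ^ E * z.1) ∧
      Set.InjOn Prod.fst (R : Set (ℕ × ℕ)) ∧ Set.InjOn Prod.snd (R : Set (ℕ × ℕ)) ∧
      ∏ p ∈ S, (e p + 1) ≤ (E + 1) * R.card ^ 2 := by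
  classical
  induction N using Nat.strong_induction_on with | _ N ih
  intro S hN hS hanti E l hl hly hb
  have hyl : 1 ≤ y / l := (one_le_div hl).2 hly
  by_cases hsmall : S.card ≤ 1
  · refine ⟨1, 1, {(1, 1)}, by simp, by simp, by simp, ?_, by simp, by simp, ?_⟩
    · intro z hz
      rw [mem_singleton] at hz
      subst hz
      refine ⟨by simp, by simp, le_rfl, ?_⟩
      simpa using one_le_pow₀ hyl
    · rcases S.eq_empty_or_nonempty with rfl | ⟨p, hp⟩
      · simp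
      · have : S = {p} := by
          apply eq_singleton_iff_unique_mem.2 ⟨hp, fun q hq => card_le_one.1 hsmall q hq p hp⟩
        subst this
        simpa using (hb p hp).1
  have hne : S.Nonempty := card_pos.1 (by omega)
  set p1 := S.min' hne with hp1
  have hp1S : p1 ∈ S := min'_mem _ _
  have hne' : (S.erase p1).Nonempty := card_pos.1 (by rw [card_erase_of_mem hp1S]; omega)
  set p2 := (S.erase p1).min' hne' with hp2
  have hp2S' : p2 ∈ S.erase p1 := min'_mem _ _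
  have hp2S : p2 ∈ S := mem_of_mem_erase hp2S'
  have hp12 : p2 ≠ p1 := ne_of_mem_erase hp2S'
  have hle12 : p1 ≤ p2 := min'_le _ _ hp2S
  set S' := (S.erase p1).erase p2 with hS'
  have hsub : ∀ q ∈ S', q ∈ S := fun q hq => mem_of_mem_erase (mem_of_mem_erase hq)
  have hP1 := hS p1 hp1S
  have hP2 := hS p2 hp2S
  have hp1r : (0 : ℝ) < p1 := by exact_mod_cast hP1.pos
  have hp2r : (0 : ℝ) < p2 := by exact_mod_cast hP2.pos
  obtain ⟨m1, m2, R, hcop, hdvd, hmem, hR, hi1, hi2, hcard⟩ := ih S'.card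
    (by rw [hS', card_erase_of_mem hp2S', card_erase_of_mem hp1S]; omega) S' rfl
    (fun q hq => hS q (hsub q hq)) (fun p hp q hq => hanti p (hsub p hp) q (hsub q hq))
    (e p2) p2 hp2r (hb p2 hp2S).2.2 (by
      intro q hq
      have h1 : p2 ≤ q := min'_le _ _ (mem_of_mem_erase hq)
      exact ⟨hanti p2 hp2S q (hsub q hq) h1, by exact_mod_cast h1, (hb q (hsub q hq)).2.2⟩)
  have hprod : ∀ f : ℕ → ℕ, ∏ p ∈ S, f p = f p1 * (f p2 * ∏ p ∈ S', f p) := by
    intro f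
    rw [hS', mul_prod_erase _ _ hp2S', mul_prod_erase _ _ hp1S]
  have hco : ∀ p, p.Prime → p ∉ S' → Nat.Coprime (m1 * m2) p := by
    intro p hp hpS
    apply Nat.Coprime.coprime_dvd_left hdvd
    apply Nat.Coprime.prod_left
    intro q hq
    apply Nat.Coprime.pow_left
    exact (Nat.coprime_primes (hS q (hsub q hq)) hp).2 (by rintro rfl; exact hpS hq)
  have hc1 := hco p1 hP1 (fun h => notMem_erase p1 S (mem_of_mem_erase h))
  have hc2 := hco p2 hP2 (notMem_erase p2 _)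
  have he21 : e p2 ≤ e p1 := hanti p1 hp1S p2 hp2S hle12
  have he1 : e p1 ≤ E := (hb p1 hp1S).1
  set g : (ℕ × ℕ) × ℕ → ℕ × ℕ := fun w => (w.1.1 * p1 ^ w.2, w.1.2 * p2 ^ w.2) with hg
  have hg1 : ∀ w ∈ R ×ˢ range (e p2 + 1), ∀ w' ∈ R ×ˢ range (e p2 + 1),
      (g w).1 = (g w').1 → w = w' := by
    intro w hw w' hw' h
    have a1 := (mem_product.1 hw).1
    have a2 := (mem_product.1 hw').1
    obtain ⟨b1, b2⟩ := mul_pow_inj hP1
      (Nat.Coprime.coprime_dvd_left ((hR _ a1).1.mul_right _) hc1)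
      (Nat.Coprime.coprime_dvd_left ((hR _ a2).1.mul_right _) hc1) h
    exact Prod.ext (hi1 a1 a2 b1) b2
  have hg2 : ∀ w ∈ R ×ˢ range (e p2 + 1), ∀ w' ∈ R ×ˢ range (e p2 + 1),
      (g w).2 = (g w').2 → w = w' := by
    intro w hw w' hw' h
    have a1 := (mem_product.1 hw).1
    have a2 := (mem_product.1 hw').1
    obtain ⟨b1, b2⟩ := mul_pow_inj hP2
      (Nat.Coprime.coprime_dvd_left ((hR _ a1).2.1.mul_left _) hc2)
      (Nat.Coprime.coprime_dvd_left ((hR _ a2).2.1.mul_left _) hc2) h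
    exact Prod.ext (hi2 a1 a2 b1) b2
  refine ⟨m1 * p1 ^ e p2, m2 * p2 ^ e p2, (R ×ˢ range (e p2 + 1)).image g, ?_, ?_, ?_, ?_, ?_,
    ?_, ?_⟩
  · apply Nat.Coprime.mul_left
    · exact hcop.mul_right ((Nat.Coprime.coprime_mul_right_right hc2.symm).symm.pow_right _)
    · apply Nat.Coprime.pow_left
      apply Nat.Coprime.mul_right (Nat.Coprime.coprime_mul_left_right hc1.symm)
      exact ((Nat.coprime_primes hP1 hP2).2 hp12.symm).pow_right _
  · rw [hprod]
    calc m1 * p1 ^ e p2 * (m2 * p2 ^ e p2) = p1 ^ e p2 * (p2 ^ e p2 * (m1 * m2)) := by ring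
      _ ∣ _ := Nat.mul_dvd_mul (pow_dvd_pow _ he21) (Nat.mul_dvd_mul_left _ hdvd)
  · exact mem_image.2 ⟨((m1, m2), e p2), mem_product.2 ⟨hmem, by simp⟩, rfl⟩
  · intro z hz
    obtain ⟨w, hw, rfl⟩ := mem_image.1 hz
    obtain ⟨a1, a2⟩ := mem_product.1 hw
    have hk : w.2 ≤ e p2 := by simpa [Nat.lt_succ_iff] using a2
    obtain ⟨b1, b2, b3, b4⟩ := hR _ a1
    refine ⟨Nat.mul_dvd_mul b1 (pow_dvd_pow _ hk), Nat.mul_dvd_mul b2 (pow_dvd_pow _ hk),
      Nat.mul_le_mul b3 (Nat.pow_le_pow_left hle12 _), ?_⟩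
    simp only [hg]
    push_cast
    have c1 : (1 : ℝ) ≤ (p2 : ℝ) / p1 := (one_le_div hp1r).2 (by exact_mod_cast hle12)
    have c2 : (p2 : ℝ) ^ w.2 ≤ ((p2 : ℝ) / p1) ^ e p2 * (p1 : ℝ) ^ w.2 := by
      calc (p2 : ℝ) ^ w.2 = ((p2 : ℝ) / p1) ^ w.2 * (p1 : ℝ) ^ w.2 := by
            rw [← mul_pow, div_mul_cancel₀ _ hp1r.ne']
        _ ≤ _ := mul_le_mul_of_nonneg_right (pow_le_pow_right₀ c1 hk) (by positivity)
    have hy0 : 0 ≤ y := by linarith
    have c3 : (y / p2) ^ e p2 * ((p2 : ℝ) / p1) ^ e p2 ≤ (y / l) ^ E := by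
      rw [← mul_pow]
      have : y / p2 * ((p2 : ℝ) / p1) ≤ y / l := by
        rw [show y / p2 * ((p2 : ℝ) / p1) = y / p1 by field_simp]
        exact div_le_div_of_nonneg_left hy0 hl (hb p1 hp1S).2.1
      exact (pow_le_pow_left₀ (by positivity) this _).trans (pow_le_pow_right₀ hyl (by omega))
    calc (w.1.2 : ℝ) * (p2 : ℝ) ^ w.2
        ≤ ((y / p2) ^ e p2 * w.1.1) * (((p2 : ℝ) / p1) ^ e p2 * (p1 : ℝ) ^ w.2) :=
          mul_le_mul b4 c2 (by positivity) (by positivity)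
      _ = ((y / p2) ^ e p2 * ((p2 : ℝ) / p1) ^ e p2) * (w.1.1 * (p1 : ℝ) ^ w.2) := by ring
      _ ≤ _ := mul_le_mul_of_nonneg_right c3 (by positivity)
  · intro z hz z' hz' h
    obtain ⟨w, hw, rfl⟩ := mem_image.1 (mem_coe.1 hz)
    obtain ⟨w', hw', rfl⟩ := mem_image.1 (mem_coe.1 hz')
    rw [hg1 w hw w' hw' h]
  · intro z hz z' hz' h
    obtain ⟨w, hw, rfl⟩ := mem_image.1 (mem_coe.1 hz)
    obtain ⟨w', hw', rfl⟩ := mem_image.1 (mem_coe.1 hz')
    rw [hg2 w hw w' hw' h]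
  · rw [card_image_of_injOn (fun w hw w' hw' h => hg1 w hw w' hw' (congrArg Prod.fst h)),
      card_product, card_range, hprod]
    calc (e p1 + 1) * ((e p2 + 1) * ∏ p ∈ S', (e p + 1))
        ≤ (E + 1) * ((e p2 + 1) * ((e p2 + 1) * R.card ^ 2)) :=
          Nat.mul_le_mul (by omega) (Nat.mul_le_mul_left _ hcard)
      _ = _ := by ring

/-- Cauchy-Schwarz over dyadic classes produces many divisors near the square root. -/
lemma central (T : Affine.Triangle ℝ Plane) {d m1 m2 : ℕ} {K : ℝ} {R : Finset (ℕ × ℕ)}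
    (h1 : 0 < m1) (h2 : 0 < m2) (hcop : Nat.Coprime m1 m2) (hmem : (m1, m2) ∈ R)
    (hR : ∀ z ∈ R, z.1 ∣ m1 ∧ z.2 ∣ m2 ∧ z.1 ≤ z.2 ∧ (z.2 : ℝ) ≤ K * z.1)
    (hi1 : Set.InjOn Prod.fst (R : Set (ℕ × ℕ))) (hi2 : Set.InjOn Prod.snd (R : Set (ℕ × ℕ)))
    (hd : 3 * K * m1 < d) :
    R.card ^ 2 ≤ (Nat.log 2 m1 + 1) * (mu T d).toNat := by
  classical
  obtain ⟨-, -, hm12, hmK⟩ := hR _ hmem
  simp only at hm12 hmK
  have hm1r : (0 : ℝ) < m1 := by exact_mod_cast h1
  have hm12r : (m1 : ℝ) ≤ m2 := by exact_mod_cast hm12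
  have hK : 0 ≤ K := by nlinarith
  set c : ℕ × ℕ → ℕ := fun z => Nat.log 2 z.1 with hc
  set W := (R ×ˢ R).filter (fun w => c w.1 = c w.2) with hW
  have hcm : ∀ z ∈ R, c z ∈ range (Nat.log 2 m1 + 1) := by
    intro z hz
    rw [mem_range, Nat.lt_succ_iff]
    exact Nat.log_mono_right (Nat.le_of_dvd h1 (hR z hz).1)
  have e1 : R.card = ∑ i ∈ range (Nat.log 2 m1 + 1), (R.filter fun z => c z = i).card :=
    card_eq_sum_card_fiberwise hcm
  have e2 : W.card = ∑ i ∈ range (Nat.log 2 m1 + 1), (R.filter fun z => c z = i).card ^ 2 := by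
    rw [card_eq_sum_card_fiberwise (f := fun w => c w.1) (t := range (Nat.log 2 m1 + 1))
      (fun w hw => hcm _ (mem_product.1 (mem_filter.1 hw).1).1)]
    apply sum_congr rfl
    intro i _
    rw [pow_two, ← card_product]
    congr 1
    ext w
    simp only [mem_filter, mem_product]
    constructor
    · rintro ⟨⟨⟨a, b⟩, c⟩, d⟩
      exact ⟨⟨a, d⟩, b, c ▸ d⟩
    · rintro ⟨⟨a, d⟩, b, c⟩
      exact ⟨⟨⟨a, b⟩, d.trans c.symm⟩, d⟩
  have e3 : R.card ^ 2 ≤ (Nat.log 2 m1 + 1) * W.card := by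
    rw [e1, e2]
    simpa using sq_sum_le_card_mul_sum_sq (s := range (Nat.log 2 m1 + 1))
      (f := fun i => (R.filter fun z => c z = i).card)
  refine e3.trans (Nat.mul_le_mul_left _ ?_)
  have hdy : ∀ a b : ℕ, 0 < b → Nat.log 2 a = Nat.log 2 b → a ≤ 2 * b := by
    intro a b hb h
    have x1 := Nat.lt_pow_succ_log_self (b := 2) (by norm_num) a
    have x2 := Nat.pow_log_le_self 2 hb.ne'
    rw [h, pow_succ] at x1
    omega
  have hd1 : 1 ≤ d := by
    have : (0 : ℝ) < d := lt_of_le_of_lt (by positivity) hd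
    exact_mod_cast this
  apply le_toNat_mu T hd1
  have key := card_le_mu T (d := d) h1 h2 (by
      have : (m1 : ℝ) + m2 < d := by nlinarith
      exact_mod_cast this) (W.image fun w => w.1.1 * (m2 / w.2.2)) (by
      intro u hu
      obtain ⟨w, hw, rfl⟩ := mem_image.1 hu
      obtain ⟨hw1, hw2⟩ := mem_filter.1 hw
      obtain ⟨a1, a2⟩ := mem_product.1 hw1
      obtain ⟨⟨r, hr⟩, -, -, -⟩ := hR _ a1
      obtain ⟨b0, ⟨s, hs⟩, b1, b2⟩ := hR _ a2
      have p1 : 0 < w.1.1 := Nat.pos_of_dvd_of_pos ⟨r, hr⟩ h1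
      have p2 : 0 < w.2.1 := Nat.pos_of_dvd_of_pos b0 h1
      have p3 : 0 < w.2.2 := by omega
      have q1 := hdy _ _ p2 hw2
      have q2 := hdy _ _ p1 hw2.symm
      have hs' : m2 / w.2.2 = s := by rw [hs, Nat.mul_div_cancel_left _ p3]
      rw [hs']
      refine ⟨r * w.2.2, by rw [hr, hs]; ring, ?_, ?_⟩
      · have : w.1.1 * s ≤ 2 * m2 := by
          rw [hs, ← mul_assoc]; exact Nat.mul_le_mul_right _ (by omega)
        have x1 : ((w.1.1 * s : ℕ) : ℝ) ≤ 2 * m2 := by exact_mod_cast this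
        have : ((m1 + w.1.1 * s : ℕ) : ℝ) < d := by
          rw [Nat.cast_add]; nlinarith
        exact_mod_cast this
      · have x1 : (w.2.1 : ℝ) ≤ 2 * w.1.1 := by exact_mod_cast q2
        have x2 : (m1 : ℝ) = w.1.1 * r := by exact_mod_cast hr
        have x3 : (w.2.2 : ℝ) ≤ K * (2 * w.1.1) := b2.trans (mul_le_mul_of_nonneg_left x1 hK)
        have x4 : (r : ℝ) * w.2.2 ≤ r * (K * (2 * w.1.1)) :=
          mul_le_mul_of_nonneg_left x3 (by positivity)
        have x5 : (r : ℝ) * (K * (2 * w.1.1)) = 2 * (K * m1) := by rw [x2]; ring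
        have : ((m2 + r * w.2.2 : ℕ) : ℝ) < d := by
          push_cast; nlinarith
        exact_mod_cast this)
  rwa [card_image_of_injOn] at key
  intro w hw w' hw' h
  obtain ⟨a1, a2⟩ := mem_product.1 (mem_filter.1 hw).1
  obtain ⟨a1', a2'⟩ := mem_product.1 (mem_filter.1 hw').1
  simp only at h
  have c1 : Nat.Coprime w.1.1 (m2 / w'.2.2) :=
    Nat.Coprime.coprime_dvd_right (Nat.div_dvd_of_dvd (hR _ a2').2.1)
      (Nat.Coprime.coprime_dvd_left (hR _ a1).1 hcop)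
  have c2 : Nat.Coprime w'.1.1 (m2 / w.2.2) :=
    Nat.Coprime.coprime_dvd_right (Nat.div_dvd_of_dvd (hR _ a2).2.1)
      (Nat.Coprime.coprime_dvd_left (hR _ a1').1 hcop)
  have x1 : w.1.1 = w'.1.1 :=
    Nat.dvd_antisymm (c1.dvd_of_dvd_mul_right ⟨_, h.symm⟩) (c2.dvd_of_dvd_mul_right ⟨_, h⟩)
  rw [x1] at h
  have x2 := Nat.eq_of_mul_eq_mul_left (Nat.pos_of_dvd_of_pos (hR _ a1').1 h1) h
  have x3 : w.2.2 = w'.2.2 := by
    rw [← Nat.div_div_self (hR _ a2).2.1 h2.ne', x2, Nat.div_div_self (hR _ a2').2.1 h2.ne']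
  exact Prod.ext (hi1 a1 a1' x1) (hi2 a2 a2' x3)

/-! ### Highly composite numbers -/

lemma two_prime_split {n p q : ℕ} (hn : n ≠ 0) (hp : p.Prime) (hq : q.Prime) (hpq : p ≠ q) :
    ∃ m : ℕ, 0 < m ∧ n = p ^ n.factorization p * (q ^ n.factorization q * m) ∧
      ∀ a b : ℕ, (p ^ a * (q ^ b * m)).divisors.card = (a + 1) * ((b + 1) * m.divisors.card) := by
  obtain ⟨a, n1, h1, rfl⟩ := Nat.exists_eq_pow_mul_and_not_dvd hn p hp.ne_one
  have hn1 : n1 ≠ 0 := by rintro rfl; simp at hn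
  obtain ⟨b, m, h2, rfl⟩ := Nat.exists_eq_pow_mul_and_not_dvd hn1 q hq.ne_one
  have hm : m ≠ 0 := by rintro rfl; simp at hn1
  have h3 : ¬ p ∣ m := fun h => h1 (h.mul_left _)
  refine ⟨m, Nat.pos_of_ne_zero hm, ?_, ?_⟩
  · have e1 : (p ^ a * (q ^ b * m)).factorization p = a := by
      rw [Nat.factorization_mul (pow_ne_zero _ hp.ne_zero) hn1, hp.factorization_pow]
      simp [Nat.factorization_eq_zero_of_not_dvd h1]
    have e2 : (p ^ a * (q ^ b * m)).factorization q = b := by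
      rw [Nat.factorization_mul (pow_ne_zero _ hp.ne_zero) hn1,
        Nat.factorization_mul (pow_ne_zero _ hq.ne_zero) hm, hp.factorization_pow,
        hq.factorization_pow]
      simp [Nat.factorization_eq_zero_of_not_dvd h2, hpq]
    rw [e1, e2]
  · intro a b
    have c1 : Nat.Coprime (q ^ b) m := ((Nat.Prime.coprime_iff_not_dvd hq).2 h2).pow_left _
    have c2 : Nat.Coprime (p ^ a) (q ^ b * m) := by
      apply Nat.Coprime.pow_left
      exact Nat.Coprime.mul_right (((Nat.coprime_primes hp hq).2 hpq).pow_right _)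
        ((Nat.Prime.coprime_iff_not_dvd hp).2 h3)
    rw [c2.card_divisors_mul, c1.card_divisors_mul, Nat.divisors_prime_pow hp,
      Nat.divisors_prime_pow hq, card_map, card_map, card_range, card_range]

lemma exists_hcn {X : ℕ} (hX : 1 ≤ X) : ∃ n : ℕ, 0 < n ∧ n ≤ X ∧ X < 2 * n ∧
    n.divisors.card = maxTau X ∧ ∀ n', 0 < n' → n' < n → n'.divisors.card < n.divisors.card := by
  classical
  have hex : ∃ n, n ∈ Icc 1 X ∧ n.divisors.card = maxTau X := by
    obtain ⟨n, hn, hn'⟩ := Finset.exists_mem_eq_sup (Icc 1 X) ⟨1, mem_Icc.2 ⟨le_rfl, hX⟩⟩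
      (fun m => m.divisors.card)
    exact ⟨n, hn, hn'.symm⟩
  obtain ⟨h1, h2⟩ := Nat.find_spec hex
  set n := Nat.find hex
  obtain ⟨h3, h4⟩ := mem_Icc.1 h1
  refine ⟨n, h3, h4, ?_, h2, ?_⟩
  · by_contra hcon
    have h5 := tau_le_maxTau (m := 2 * n) (X := X) (by omega) (by omega)
    have h6 : n.divisors ⊂ (2 * n).divisors := by
      refine ⟨Nat.divisors_subset_of_dvd (by omega) (Dvd.intro_left _ rfl), fun h => ?_⟩
      have := Nat.divisor_le (h (Nat.mem_divisors_self (2 * n) (by omega)))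
      omega
    have := card_lt_card h6
    omega
  · intro n' a b
    have h5 := tau_le_maxTau (m := n') (X := X) a (by omega)
    have h6 := Nat.find_min hex b
    rw [mem_Icc] at h6
    have : n'.divisors.card ≠ maxTau X := fun h => h6 ⟨⟨a, by omega⟩, h⟩
    omega

lemma hcn_anti {n : ℕ} (hn : 0 < n)
    (h : ∀ n', 0 < n' → n' < n → n'.divisors.card < n.divisors.card) {p q : ℕ}
    (hp : p.Prime) (hq : q.Prime) (hpq : p ≤ q) : n.factorization q ≤ n.factorization p := by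
  by_contra hcon
  have hne : p ≠ q := by rintro rfl; exact hcon le_rfl
  obtain ⟨m, hm, e1, e2⟩ := two_prime_split hn.ne' hp hq hne
  obtain ⟨k, hk⟩ := Nat.exists_eq_add_of_lt (not_le.1 hcon)
  set a := n.factorization p
  set b := n.factorization q
  have hp0 := hp.pos
  have hq0 := hq.pos
  have := h (p ^ b * (q ^ a * m)) (by positivity) (by
    rw [e1, hk, add_assoc, pow_add p a, pow_add q a]
    have h1 : p ^ (k + 1) < q ^ (k + 1) := Nat.pow_lt_pow_left (by omega) (by omega)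
    have h2 : 0 < p ^ a * q ^ a * m := by positivity
    calc p ^ a * p ^ (k + 1) * (q ^ a * m) = (p ^ a * q ^ a * m) * p ^ (k + 1) := by ring
      _ < (p ^ a * q ^ a * m) * q ^ (k + 1) := Nat.mul_lt_mul_of_pos_left h1 h2
      _ = _ := by ring)
  rw [e2] at this
  conv_rhs at this => rw [e1, e2]
  nlinarith

lemma hcn_pow_le {n : ℕ} (hn : 0 < n)
    (h : ∀ n', 0 < n' → n' < n → n'.divisors.card < n.divisors.card) {p q : ℕ}
    (hp : p ∈ n.primeFactors) (hq : q.Prime) (hqn : ¬ q ∣ n) :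
    p ≤ q ∧ p ^ n.factorization p ≤ q ^ 2 := by
  have hP := Nat.prime_of_mem_primeFactors hp
  have hpn := Nat.dvd_of_mem_primeFactors hp
  have hne : p ≠ q := by rintro rfl; exact hqn hpn
  obtain ⟨m, hm, e1, e2⟩ := two_prime_split hn.ne' hP hq hne
  have he : 0 < n.factorization p := hP.factorization_pos_of_dvd hn.ne' hpn
  rw [Nat.factorization_eq_zero_of_not_dvd hqn] at e1
  set a := n.factorization p
  set k := (a + 1) / 2 with hk
  have hp0 := hP.pos
  have hq0 := hq.pos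
  have key : p ^ k ≤ q := by
    by_contra hcon
    obtain ⟨r, hr⟩ : ∃ r, a = r + k := ⟨a - k, by omega⟩
    have := h (p ^ r * (q ^ 1 * m)) (by positivity) (by
      rw [e1, hr, pow_add]
      have h2 : 0 < p ^ r * m := by positivity
      calc p ^ r * (q ^ 1 * m) = (p ^ r * m) * q := by ring
        _ < (p ^ r * m) * p ^ k := Nat.mul_lt_mul_of_pos_left (not_le.1 hcon) h2
        _ = _ := by ring)
    rw [e2] at this
    conv_rhs at this => rw [e1, e2]
    have h3 : a + 1 ≤ (r + 1) * 2 := by omega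
    have h4 := Nat.mul_le_mul_right m.divisors.card h3
    nlinarith
  refine ⟨le_trans (Nat.le_self_pow (by omega) p) key, ?_⟩
  calc p ^ a ≤ p ^ (k * 2) := Nat.pow_le_pow_right hp0 (by omega)
    _ = (p ^ k) ^ 2 := pow_mul _ _ _
    _ ≤ q ^ 2 := Nat.pow_le_pow_left key _

lemma exists_prime_not_dvd {n N : ℕ} (hn : 0 < n) (h : n < 2 ^ Nat.primeCounting N) :
    ∃ q, q.Prime ∧ q ≤ N ∧ ¬ q ∣ n := by
  by_contra hcon
  push Not at hcon
  have h1 : Nat.primesLE N ⊆ n.primeFactors := fun q hq =>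
    Nat.mem_primeFactors.2 ⟨Nat.prime_of_mem_primesLE hq,
      hcon q (Nat.prime_of_mem_primesLE hq) (Nat.le_of_mem_primesLE hq), hn.ne'⟩
  have h2 := card_le_card h1
  rw [Nat.primesLE_card_eq_primeCounting] at h2
  have h3 : 2 ^ n.primeFactors.card ≤ ∏ p ∈ n.primeFactors, p :=
    Finset.pow_card_le_prod _ id 2 fun p hp => (Nat.prime_of_mem_primeFactors hp).two_le
  have h4 := Nat.le_of_dvd hn (Nat.prod_primeFactors_dvd n)
  have h5 := Nat.pow_le_pow_right (n := 2) (by norm_num) h2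
  omega

lemma nine_lt_exp : (9 : ℝ) < Real.exp 3 := by
  have := Real.quadratic_le_exp_of_nonneg (x := 3 / 2) (by norm_num)
  have b2 : Real.exp 3 = Real.exp (3 / 2) * Real.exp (3 / 2) := by
    rw [← Real.exp_add]; norm_num
  nlinarith

lemma aux1 {t z : ℝ} (h5 : 1 ≤ t) (hz : 300 * t ^ 2 ≤ z) :
    300 * t ≤ z * z ∧ (z + 1 + 55 * t) * (4 * t) ≤ z * z := by
  have htt : t ≤ t ^ 2 := by nlinarith
  have hz0 : 0 < z := by nlinarith
  have b1 := mul_le_mul_of_nonneg_left hz hz0.le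
  have b2 := mul_le_mul_of_nonneg_left htt hz0.le
  have b3 : 1 ≤ t ^ 2 := by linarith
  have b4 := mul_le_mul_of_nonneg_left b3 hz0.le
  constructor <;> nlinarith

theorem maxTau_le_mu : ∀ᶠ d : ℕ in atTop, ∀ T : Affine.Triangle ℝ Plane,
    ((maxTau (d ^ 2) : ℕ) : ℝ) ≤ Real.log d ^ 200 * ((mu T d).toNat : ℕ) := by
  classical
  have hl2 : 0.69 < Real.log 2 := by linarith [Real.log_two_gt_d9]
  have hl2' : Real.log 2 < 0.7 := by linarith [Real.log_two_lt_d9]
  have e1 : ∀ᶠ t : ℝ in atTop, t ^ 2 * Real.exp (-(1 / 2) * t) < 1 / 300 :=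
    (tendsto_sq_exp (by norm_num)).eventually (gt_mem_nhds (by norm_num))
  have e3 : ∀ᶠ t : ℝ in atTop, Real.exp (2 * t) / 2 ≤ (Real.exp (2 * t) - 1) * Real.log 2 -
      Real.log (Real.exp (2 * t) + 2) :=
    (Real.tendsto_exp_atTop.comp (tendsto_id.const_mul_atTop (by norm_num : (0 : ℝ) < 2))).eventually
      eventually_cheb
  filter_upwards [tendsto_loglog.eventually e1, tendsto_loglog.eventually e3,
    tendsto_loglog.eventually_ge_atTop 1, eventually_ge_atTop 2] with d h1 h3 h5 h6 T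
  set t := Real.log (Real.log d) with ht
  have hd1 : (1 : ℝ) < d := by exact_mod_cast h6
  have hL : 0 < Real.log d := Real.log_pos hd1
  have hLt : Real.log d = Real.exp t := (Real.exp_log hL).symm
  have ht0 : 0 < t := by linarith
  set z := Real.exp (t / 2) with hz
  have hz0 : 0 < z := Real.exp_pos _
  have hzz : Real.exp t = z * z := by rw [hz, ← Real.exp_add]; congr 1; ring
  have htt : t ≤ t ^ 2 := by rw [pow_two]; exact le_mul_of_one_le_left ht0.le h5
  have hzbig : 300 * t ^ 2 ≤ z := by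
    have h7 : Real.exp (-(1 / 2) * t) * z = 1 := by
      rw [hz, ← Real.exp_add, show -(1 / 2) * t + t / 2 = 0 by ring, Real.exp_zero]
    have h8 := mul_le_mul_of_nonneg_right h1.le hz0.le
    rw [mul_assoc, h7] at h8
    linarith
  set y := Real.exp (2 * t) with hy
  have hyE : y = Real.exp t * Real.exp t := by rw [hy, ← Real.exp_add]; congr 1; ring
  have hy1 : 1 < y := Real.one_lt_exp_iff.2 (by linarith)
  have hlogy : Real.log y = 2 * t := Real.log_exp _
  have hE : 0 < Real.exp t := Real.exp_pos _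
  have hEbig : 300 * t ≤ Real.exp t := by rw [hzz]; exact (aux1 h5 hzbig).1
  obtain ⟨n, hn0, hnX, hXn, hnM, hmin⟩ := exists_hcn (X := d ^ 2) (Nat.one_le_pow _ _ (by omega))
  have hnr : (0 : ℝ) < n := by exact_mod_cast hn0
  have hlogd2 : Real.log ((d : ℝ) ^ 2) = 2 * Real.exp t := by
    rw [Real.log_pow, hLt]; norm_num
  have hnXr : (n : ℝ) ≤ (d : ℝ) ^ 2 := by exact_mod_cast hnX
  have hlogn : Real.log n ≤ 2 * Real.exp t := hlogd2 ▸ Real.log_le_log hnr hnXr
  have hlogn' : 2 * Real.exp t ≤ Real.log 2 + Real.log n := by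
    rw [← hlogd2, ← Real.log_mul (by norm_num) hnr.ne']
    apply Real.log_le_log (by positivity)
    exact_mod_cast hXn.le
  obtain ⟨q, hq, hqN, hqn⟩ := exists_prime_not_dvd (N := ⌊y⌋₊) hn0 (by
    have h7 := Chebyshev.pi_ge' hy1
    rw [hlogy, div_le_iff₀ (by linarith)] at h7
    have h8 : 3 * Real.exp t ≤ (Nat.primeCounting ⌊y⌋₊ : ℝ) := by
      apply le_of_mul_le_mul_right _ (by linarith : 0 < 2 * t)
      have := mul_le_mul_of_nonneg_left hEbig hE.le
      have h9 : 0 < Real.exp t * t := by positivity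
      linarith
    have h9 : Real.log n < Real.log ((2 : ℝ) ^ Nat.primeCounting ⌊y⌋₊) := by
      rw [Real.log_pow]
      have := mul_le_mul h8 hl2.le (by norm_num) (by positivity)
      linarith
    have := (Real.log_lt_log_iff hnr (by positivity)).1 h9
    exact_mod_cast this)
  have hqy : (q : ℝ) ≤ y := le_trans (by exact_mod_cast hqN) (Nat.floor_le (by linarith))
  set f := n.factorization with hf
  set S := n.primeFactors with hS
  have hprime : ∀ p ∈ S, p.Prime := fun p hp => Nat.prime_of_mem_primeFactors hp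
  have hpy : ∀ p ∈ S, (p : ℝ) ≤ y := fun p hp =>
    le_trans (by exact_mod_cast (hcn_pow_le hn0 hmin hp hq hqn).1) hqy
  have hpe : ∀ p ∈ S, (f p : ℝ) * Real.log p ≤ 4 * t := by
    intro p hp
    have a1 : ((p : ℝ)) ^ f p ≤ (q : ℝ) ^ 2 := by exact_mod_cast (hcn_pow_le hn0 hmin hp hq hqn).2
    have a2 : (q : ℝ) ^ 2 ≤ y ^ 2 := pow_le_pow_left₀ (by positivity) hqy _
    have a3 : (0 : ℝ) < p := by exact_mod_cast (hprime p hp).pos
    have a4 := Real.log_le_log (by positivity) (a1.trans a2)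
    rw [Real.log_pow, Real.log_pow, hlogy] at a4
    push_cast at a4
    linarith
  have hnprod : n = ∏ p ∈ S, p ^ f p := (Nat.prod_factorization_pow_eq_self hn0.ne').symm
  have hScard : Real.exp t ≤ S.card * (4 * t) := by
    have a1 : Real.log n = ∑ p ∈ S, (f p : ℝ) * Real.log p := by
      rw [hnprod]
      push_cast
      rw [Real.log_prod]
      · simp [Real.log_pow]
      · intro p hp
        have := (hprime p hp).pos
        positivity
    have a2 := Finset.sum_le_card_nsmul S _ _ hpe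
    rw [nsmul_eq_mul] at a2
    linarith
  set j := ⌈54 * t⌉₊ with hj
  have hj1 : 54 * t ≤ j := Nat.le_ceil _
  have hj2 : (j : ℝ) ≤ 55 * t := by
    have := Nat.ceil_lt_add_one (a := 54 * t) (by linarith)
    linarith
  have hS1 : j ≤ (S.filter fun p : ℕ => z ≤ p).card := by
    have a1 : (S.filter fun p : ℕ => ¬ z ≤ p) ⊆ range ⌈z⌉₊ := by
      intro p hp
      rw [mem_range, Nat.lt_ceil]
      exact not_le.1 (mem_filter.1 hp).2
    have a2 := card_le_card a1
    rw [card_range] at a2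
    have a3 := card_filter_add_card_filter_not (s := S) (fun p : ℕ => z ≤ p)
    have a4 : (⌈z⌉₊ : ℝ) < z + 1 := Nat.ceil_lt_add_one hz0.le
    have a5 : z + 1 + 55 * t ≤ S.card := by
      apply le_of_mul_le_mul_right _ (by linarith : 0 < 4 * t)
      refine le_trans ?_ hScard
      rw [hzz]
      exact (aux1 h5 hzbig).2
    have a6 : (⌈z⌉₊ + j : ℝ) ≤ S.card := by linarith
    have a7 : ⌈z⌉₊ + j ≤ S.card := by exact_mod_cast a6
    omega
  obtain ⟨J, hJ, hJc⟩ := Finset.exists_subset_card_eq hS1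
  have hJS : J ⊆ S := hJ.trans (filter_subset _ _)
  have hJz : ∀ p ∈ J, z ≤ p := fun p hp => (mem_filter.1 (hJ hp)).2
  have hJe : ∀ p ∈ J, f p + 1 ≤ 9 := by
    intro p hp
    have a1 := Real.log_le_log hz0 (hJz p hp)
    rw [hz, Real.log_exp] at a1
    have a2 := hpe p (hJS hp)
    have a3 := mul_le_mul_of_nonneg_left a1 (by positivity : (0 : ℝ) ≤ f p)
    have a4 : (f p : ℝ) ≤ 8 := le_of_mul_le_mul_right (by linarith) ht0
    have : f p ≤ 8 := by exact_mod_cast a4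
    omega
  set E := ⌊6 * t⌋₊ with hEdef
  have hE6 : (E : ℝ) ≤ 6 * t := Nat.floor_le (by linarith)
  obtain ⟨m1, m2, R, hcop, hdvd, hmem, hR, hi1, hi2, hcard⟩ := pairing y f _ (S \ J) rfl
    (fun p hp => hprime p (sdiff_subset hp))
    (fun p hp r hr hpr => hcn_anti hn0 hmin (hprime p (sdiff_subset hp))
      (hprime r (sdiff_subset hr)) hpr) E 1 one_pos hy1.le (by
      intro p hp
      have hpS : p ∈ S := sdiff_subset hp
      have a0 : (2 : ℝ) ≤ p := by exact_mod_cast (hprime p hpS).two_le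
      refine ⟨Nat.le_floor ?_, by linarith, hpy p hpS⟩
      have a1 := Real.log_le_log (by norm_num) a0
      have a2 := hpe p hpS
      have a3 : (0 : ℝ) ≤ f p := by positivity
      have a4 := mul_le_mul_of_nonneg_left (hl2.le.trans a1) a3
      linarith)
  rw [div_one] at hR
  have hn'0 : 0 < ∏ p ∈ S \ J, p ^ f p :=
    Finset.prod_pos fun p hp => pow_pos (hprime p (sdiff_subset hp)).pos _
  have hm12 : 0 < m1 * m2 := Nat.pos_of_dvd_of_pos hdvd hn'0
  have hm1 : 0 < m1 := Nat.pos_of_mul_pos_right hm12 |> fun _ => by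
    rcases Nat.eq_zero_or_pos m1 with h0 | h0
    · rw [h0] at hm12; omega
    · exact h0
  have hm2 : 0 < m2 := by
    rcases Nat.eq_zero_or_pos m2 with h0 | h0
    · rw [h0] at hm12; omega
    · exact h0
  have hm1r : (0 : ℝ) < m1 := by exact_mod_cast hm1
  have hK1 : 1 ≤ y ^ E := one_le_pow₀ hy1.le
  have hd : 3 * y ^ E * m1 < d := by
    have a1 : m1 * m1 ≤ ∏ p ∈ S \ J, p ^ f p :=
      le_trans (Nat.mul_le_mul_left _ (hR _ hmem).2.2.1) (Nat.le_of_dvd hn'0 hdvd)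
    have a2 : z ^ j ≤ ((∏ p ∈ J, p ^ f p : ℕ) : ℝ) := by
      push_cast
      rw [← hJc, ← prod_const]
      apply Finset.prod_le_prod (fun _ _ => hz0.le)
      intro p hp
      refine (hJz p hp).trans (le_self_pow₀ ?_ ?_)
      · exact_mod_cast (hprime p (hJS hp)).one_lt.le
      · exact ((hprime p (hJS hp)).factorization_pos_of_dvd hn0.ne'
          (Nat.dvd_of_mem_primeFactors (hJS hp))).ne'
    have a3 : m1 * m1 * ∏ p ∈ J, p ^ f p ≤ n := by
      rw [hnprod, ← prod_sdiff hJS]; exact Nat.mul_le_mul_right _ a1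
    have a4 : (m1 : ℝ) * m1 * ((∏ p ∈ J, p ^ f p : ℕ) : ℝ) ≤ n := by exact_mod_cast a3
    have a5 : 9 * (y ^ E) ^ 2 < z ^ j := by
      rw [hz, hy, ← Real.exp_nat_mul, ← Real.exp_nat_mul, ← Real.exp_nat_mul]
      refine (mul_lt_mul_of_pos_right nine_lt_exp (Real.exp_pos _)).trans_le ?_
      rw [← Real.exp_add]
      apply Real.exp_le_exp.2
      have b2 := mul_le_mul_of_nonneg_right hE6 ht0.le
      have b3 := mul_le_mul_of_nonneg_right hj1 ht0.le
      push_cast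
      linarith
    have a6 : (3 * y ^ E * m1) ^ 2 < (d : ℝ) ^ 2 := by
      calc (3 * y ^ E * m1) ^ 2 = (m1 * m1) * (9 * (y ^ E) ^ 2) := by ring
        _ < (m1 * m1) * z ^ j := mul_lt_mul_of_pos_left a5 (by positivity)
        _ ≤ (m1 * m1) * ((∏ p ∈ J, p ^ f p : ℕ) : ℝ) :=
          mul_le_mul_of_nonneg_left a2 (by positivity)
        _ ≤ _ := a4.trans hnXr
    exact lt_of_pow_lt_pow_left₀ 2 (by positivity) a6
  have key := central T hm1 hm2 hcop hmem hR hi1 hi2 hd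
  have hM : maxTau (d ^ 2) ≤ 9 ^ j * ((E + 1) * ((Nat.log 2 m1 + 1) * (mu T d).toNat)) := by
    rw [← hnM, Nat.card_divisors hn0.ne', ← prod_sdiff hJS, mul_comm]
    apply Nat.mul_le_mul
    · rw [← hJc]; exact Finset.prod_le_pow_card J _ 9 hJe
    · exact hcard.trans (Nat.mul_le_mul_left _ key)
  have b1 : (9 : ℝ) ^ j ≤ Real.exp t ^ 165 := by
    refine (pow_le_pow_left₀ (by norm_num) nine_lt_exp.le j).trans ?_
    rw [← Real.exp_nat_mul, ← Real.exp_nat_mul]
    apply Real.exp_le_exp.2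
    push_cast
    linarith
  have b2 : ((E + 1 : ℕ) : ℝ) ≤ Real.exp t := by push_cast; linarith
  have b3 : ((Nat.log 2 m1 + 1 : ℕ) : ℝ) ≤ Real.exp t ^ 2 := by
    have c1 : (2 : ℝ) ^ Nat.log 2 m1 ≤ m1 := by exact_mod_cast Nat.pow_log_le_self 2 hm1.ne'
    have c2 : (m1 : ℝ) ≤ d := by
      have := mul_le_mul_of_nonneg_right hK1 hm1r.le
      linarith
    have c3 := Real.log_le_log (by positivity) (c1.trans c2)
    rw [Real.log_pow, hLt] at c3
    have c4 := mul_le_mul_of_nonneg_left hl2.le (by positivity : (0 : ℝ) ≤ Nat.log 2 m1)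
    have c5 := mul_le_mul_of_nonneg_left (by linarith : 300 ≤ Real.exp t) hE.le
    push_cast
    linarith
  have b4 : ((maxTau (d ^ 2) : ℕ) : ℝ) ≤
      9 ^ j * (((E + 1 : ℕ) : ℝ) * (((Nat.log 2 m1 + 1 : ℕ) : ℝ) * ((mu T d).toNat : ℕ))) := by
    exact_mod_cast hM
  have hE1 : 1 ≤ Real.exp t := by linarith
  rw [hLt]
  calc ((maxTau (d ^ 2) : ℕ) : ℝ) ≤ _ := b4
    _ ≤ Real.exp t ^ 165 * (Real.exp t * (Real.exp t ^ 2 * ((mu T d).toNat : ℕ))) := by
        gcongr
    _ = Real.exp t ^ 168 * ((mu T d).toNat : ℕ) := by ring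
    _ ≤ _ := mul_le_mul_of_nonneg_right (pow_le_pow_right₀ hE1 (by norm_num)) (by positivity)

end Pool.Agent.Lib.MP_c789b2_co
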