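import Mathlib

/-!
Definitions for the Wang-Shi split of a triangle.
-/

namespace Pool.Agent.Lib.MP_c789b2_co

/-- The Euclidean plane. -/
abbrev Plane : Type := EuclideanSpace ℝ (Fin 2)

/-- The closed side of the triangle `T` joining the vertices `i` and `j`. -/
def side (T : Affine.Triangle ℝ Plane) (i j : Fin 3) : Set Plane :=
  segment ℝ (T.points i) (T.points j)

/-- The `3 d` marked boundary points: each side is divided into `d` segments of equal length
(the vertices are included). -/
def markedPoints (T : Affine.Triangle ℝ Plane) (d : ℕ) : Set Plane :=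
  {P | ∃ i j : Fin 3, i ≠ j ∧ ∃ k : ℕ, k ≤ d ∧
    P = AffineMap.lineMap (T.points i) (T.points j) ((k : ℝ) / (d : ℝ))}

/-- The lines of the Wang-Shi split: lines through two marked points that do not lie on a
common side of `T`. -/
def wsLines (T : Affine.Triangle ℝ Plane) (d : ℕ) : Set (AffineSubspace ℝ Plane) :=
  {L | ∃ P ∈ markedPoints T d, ∃ Q ∈ markedPoints T d,
    (¬ ∃ i j : Fin 3, i ≠ j ∧ P ∈ side T i j ∧ Q ∈ side T i j) ∧ L = affineSpan ℝ {P, Q}}

/-- The degree of a point: the number (in `ℕ∞`) of lines of the split that pass through it. -/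
noncomputable def degree (T : Affine.Triangle ℝ Plane) (d : ℕ) (p : Plane) : ℕ∞ :=
  {L ∈ wsLines T d | p ∈ L}.encard

end Pool.Agent.Lib.MP_c789b2_co
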