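import Mathlib
import Pool.Agent.Lib.MP_c789b2_co.Defs

-- part Pool.Agent.Lib.MP_c789b2_co.Count
section

/-!
Lattice points on the hyperbola `s / x + t / y = 1`.
-/

namespace Pool.Agent.Lib.MP_c789b2_co

open Finset

/-- Values that are pairwise at distance at least three inside an interval. -/
lemma card_le_of_separated {α : Type*} (S : Finset α) (ψ : α → ℤ) (lo hi : ℤ)
    (hlo : ∀ P ∈ S, lo ≤ ψ P) (hhi : ∀ P ∈ S, ψ P ≤ hi)
    (hsep : ∀ P ∈ S, ∀ Q ∈ S, P ≠ Q → ψ P + 3 ≤ ψ Q ∨ ψ Q + 3 ≤ ψ P)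
    (hne : 0 ≤ hi - lo + 3) : 3 * (S.card : ℤ) ≤ hi - lo + 3 := by
  classical
  have h : (S ×ˢ (range 3)).card ≤ (Icc lo (hi + 2)).card := by
    apply Finset.card_le_card_of_injOn (fun z => ψ z.1 + (z.2 : ℤ))
    · intro z hz
      simp only [coe_product, Set.mem_prod, mem_coe, mem_range] at hz
      have h1 := hlo _ hz.1
      have h2 := hhi _ hz.1
      have h3 := hz.2
      simp only [coe_Icc, Set.mem_Icc]
      constructor <;> omega
    · intro z hz w hw hzw
      simp only [coe_product, Set.mem_prod, mem_coe, mem_range] at hz hw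
      have h3 := hz.2
      have h4 := hw.2
      simp only at hzw
      by_cases hPQ : z.1 = w.1
      · have : z.2 = w.2 := by
          rw [hPQ] at hzw
          omega
        exact Prod.ext hPQ this
      · rcases hsep _ hz.1 _ hw.1 hPQ with h | h <;> omega
  rw [card_product, card_range, Int.card_Icc] at h
  have h' : ((S.card * 3 : ℕ) : ℤ) ≤ ((hi + 2 + 1 - lo).toNat : ℤ) := by exact_mod_cast h
  rw [Int.toNat_of_nonneg (by omega)] at h'
  push_cast at h'
  omega

/-- The shifted potential along the hyperbola. -/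
noncomputable def psi (s t : ℝ) (x y : ℤ) : ℤ :=
  x - y + if ((x : ℝ) - s) * ((x : ℝ) + 1 - s) ≤ s * t then 0 else 1

lemma hyp_of_eq {s t x y : ℝ} (hs : 0 < s) (ht : 0 < t) (hx : 0 < x) (hy : 0 < y)
    (h : s / x + t / y = 1) : s < x ∧ t < y ∧ (x - s) * (y - t) = s * t := by
  have h1 : 0 < s / x := by positivity
  have h2 : 0 < t / y := by positivity
  refine ⟨?_, ?_, ?_⟩
  · have : s / x < 1 := by linarith
    rwa [div_lt_one hx] at this
  · have : t / y < 1 := by linarith
    rwa [div_lt_one hy] at this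
  · field_simp at h
    nlinarith

lemma psi_sep {s t : ℝ} {x y x' y' : ℤ} (hs : s < x) (hs' : s < x') (ht : t < y) (ht' : t < y')
    (h : ((x : ℝ) - s) * ((y : ℝ) - t) = s * t) (h' : ((x' : ℝ) - s) * ((y' : ℝ) - t) = s * t)
    (hx : x < x') : psi s t x y + 3 ≤ psi s t x' y' := by
  have hxr : (x : ℝ) + 1 ≤ x' := by exact_mod_cast hx
  have hy : y' < y := by
    have : (y' : ℝ) < y := by
      by_contra hcon
      push Not at hcon
      nlinarith
    exact_mod_cast this
  have hst : 0 < s * t := by rw [← h]; apply mul_pos <;> linarith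
  unfold psi
  by_cases h2 : x' = x + 1 ∧ y' = y - 1
  · obtain ⟨rfl, rfl⟩ := h2
    push_cast at h' hs' ht' ⊢
    have e : ((x : ℝ) - s) * ((x : ℝ) + 1 - s) = s * t := by
      have : (y : ℝ) - t = (x : ℝ) + 1 - s := by nlinarith
      rw [← this]; exact h
    rw [if_pos e.le, if_neg (by nlinarith)]
    omega
  · have h3 : x - y + 3 ≤ x' - y' := by omega
    split_ifs with a b b
    · omega
    · omega
    · exfalso
      apply a
      nlinarith
    · omega

/-- `⌊f⌋`, plus one when `f` is an integer. -/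
noncomputable def gfun (f : ℝ) : ℤ := 2 * ⌊f⌋ + 1 - ⌈f⌉

/-- The lattice points of one sector. -/
noncomputable def sector (d : ℕ) (s t : ℝ) : Finset (ℕ × ℕ) := by
  classical
  exact ((Icc 1 d) ×ˢ (Icc 1 (d - 1))).filter (fun z => s / (z.1 : ℝ) + t / (z.2 : ℝ) = 1)

lemma mem_sector {d : ℕ} {s t : ℝ} {z : ℕ × ℕ} :
    z ∈ sector d s t ↔ (1 ≤ z.1 ∧ z.1 ≤ d) ∧ (1 ≤ z.2 ∧ z.2 ≤ d - 1) ∧
      s / (z.1 : ℝ) + t / (z.2 : ℝ) = 1 := by
  classical
  unfold sector
  simp only [mem_filter, mem_product, mem_Icc]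
  tauto

lemma sector_bound (d : ℕ) (s t u : ℝ) (hs : 0 < s) (ht : 0 < t) (hu : 0 < u)
    (hsum : s + t + u = d) :
    3 * ((sector d s t).card : ℤ) ≤
      d + 1 + gfun (u * d / (u + t)) - gfun (s * d / (s + u)) := by
  set fA := u * d / (u + t) with hfA
  set fB := s * d / (s + u) with hfB
  have hd : (0 : ℝ) < d := by linarith
  have hfA0 : 0 < fA := by positivity
  have hfB0 : 0 < fB := by positivity
  have hfAd : fA < d := by
    rw [hfA, div_lt_iff₀ (by linarith)]; nlinarith
  have hfBd : fB < d := by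
    rw [hfB, div_lt_iff₀ (by linarith)]; nlinarith
  have eA : fA * (u + t) = u * d := by rw [hfA]; field_simp
  have eB : fB * (s + u) = s * d := by rw [hfB]; field_simp
  have cA1 := Int.ceil_le_floor_add_one fA
  have cA2 := Int.floor_le_ceil fA
  have cB1 := Int.ceil_le_floor_add_one fB
  have cB2 := Int.floor_le_ceil fB
  have fA1 : 0 ≤ ⌊fA⌋ := Int.floor_nonneg.2 hfA0.le
  have fB1 : ⌊fB⌋ < d := by rw [Int.floor_lt]; exact_mod_cast hfBd
  have key := card_le_of_separated (sector d s t) (fun z => psi s t z.1 z.2)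
    (gfun fB - d + 2) (gfun fA) ?_ ?_ ?_ ?_
  · omega
  · intro z hz
    obtain ⟨⟨hx1, hx2⟩, ⟨hy1, hy2⟩, hz⟩ := mem_sector.1 hz
    have hxr : (0 : ℝ) < z.1 := by exact_mod_cast hx1
    have hyr : (0 : ℝ) < z.2 := by exact_mod_cast hy1
    obtain ⟨a, b, c⟩ := hyp_of_eq hs ht hxr hyr hz
    have hyd : (z.2 : ℝ) + 1 ≤ d := by
      have : z.2 + 1 ≤ d := by omega
      exact_mod_cast this
    have hyd' : (z.2 : ℤ) + 1 ≤ d := by exact_mod_cast hyd
    have hgt : fB < z.1 := by
      by_contra hcon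
      push Not at hcon
      have h1 : ((z.1 : ℝ) - s) * (s + u) ≤ s * t := by nlinarith
      have h2 : (z.2 : ℝ) - t < s + u := by linarith
      nlinarith
    have hfl : ⌊fB⌋ < (z.1 : ℤ) := by rw [Int.floor_lt]; exact_mod_cast hgt
    by_cases hint : ⌈fB⌉ = ⌊fB⌋
    · have hfBint : (⌊fB⌋ : ℝ) = fB := by
        have h1 := Int.floor_le fB
        have h2 := Int.le_ceil fB
        rw [hint] at h2
        linarith
      have hsfB : s < fB := by
        rw [hfB, lt_div_iff₀ (by linarith)]; nlinarith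
      have := @psi_sep s t ⌊fB⌋ (d : ℤ) (z.1 : ℤ) (z.2 : ℤ) (by rw [hfBint]; exact hsfB)
        (by exact_mod_cast a) (by push_cast; linarith) (by exact_mod_cast b)
        (by rw [hfBint]; push_cast
            have : (d : ℝ) - t = s + u := by linarith
            rw [this]; nlinarith)
        (by exact_mod_cast c) hfl
      have h0 : ⌊fB⌋ - (d : ℤ) ≤ psi s t ⌊fB⌋ d := by
        unfold psi; split_ifs <;> omega
      unfold gfun
      omega
    · have h0 : (z.1 : ℤ) - (z.2 : ℤ) ≤ psi s t z.1 z.2 := by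
        unfold psi; split_ifs <;> omega
      unfold gfun
      omega
  · intro z hz
    obtain ⟨⟨hx1, hx2⟩, ⟨hy1, hy2⟩, hz⟩ := mem_sector.1 hz
    have hxr : (0 : ℝ) < z.1 := by exact_mod_cast hx1
    have hyr : (0 : ℝ) < z.2 := by exact_mod_cast hy1
    obtain ⟨a, b, c⟩ := hyp_of_eq hs ht hxr hyr hz
    have hxd : (z.1 : ℝ) ≤ d := by exact_mod_cast hx2
    have h0 : psi s t z.1 z.2 ≤ (z.1 : ℤ) - (z.2 : ℤ) + 1 := by
      unfold psi; split_ifs <;> omega
    have hge : (d : ℝ) - z.2 ≤ fA := by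
      by_contra hcon
      push Not at hcon
      have h1 : ((z.2 : ℝ) - t) * (u + t) < s * t := by nlinarith
      have h2 : (z.1 : ℝ) - s ≤ u + t := by linarith
      nlinarith
    have hfl : (d : ℤ) - z.2 ≤ ⌊fA⌋ := by rw [Int.le_floor]; push_cast; exact hge
    by_cases hxe : z.1 = d
    · have hint : (d : ℝ) - z.2 = fA := by
        have hxe' : (z.1 : ℝ) = d := by exact_mod_cast hxe
        have h2 : (z.1 : ℝ) - s = u + t := by linarith
        rw [h2] at c
        have hne : u + t ≠ 0 := by positivity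
        apply mul_right_cancel₀ hne
        rw [eA]
        nlinarith
      have hc : ⌈fA⌉ ≤ (d : ℤ) - z.2 := by rw [Int.ceil_le]; push_cast; exact hint.ge
      unfold gfun
      omega
    · unfold gfun
      omega
  · intro P hP Q hQ hPQ
    obtain ⟨⟨hx1, hx2⟩, ⟨hy1, hy2⟩, hz⟩ := mem_sector.1 hP
    obtain ⟨⟨hx1', hx2'⟩, ⟨hy1', hy2'⟩, hz'⟩ := mem_sector.1 hQ
    have hxr : (0 : ℝ) < P.1 := by exact_mod_cast hx1
    have hyr : (0 : ℝ) < P.2 := by exact_mod_cast hy1
    have hxr' : (0 : ℝ) < Q.1 := by exact_mod_cast hx1'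
    have hyr' : (0 : ℝ) < Q.2 := by exact_mod_cast hy1'
    obtain ⟨a, b, c⟩ := hyp_of_eq hs ht hxr hyr hz
    obtain ⟨a', b', c'⟩ := hyp_of_eq hs ht hxr' hyr' hz'
    rcases lt_trichotomy P.1 Q.1 with h | h | h
    · left
      exact psi_sep (by exact_mod_cast a) (by exact_mod_cast a') (by exact_mod_cast b)
        (by exact_mod_cast b') (by exact_mod_cast c) (by exact_mod_cast c') (by exact_mod_cast h)
    · exfalso
      apply hPQ
      have h' : (P.1 : ℝ) = Q.1 := by exact_mod_cast h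
      have : (P.2 : ℝ) = Q.2 := by
        rw [h'] at c
        have hne : (Q.1 : ℝ) - s ≠ 0 := by linarith
        have := mul_left_cancel₀ hne (c.trans c'.symm)
        linarith
      exact Prod.ext h (by exact_mod_cast this)
    · right
      exact psi_sep (by exact_mod_cast a') (by exact_mod_cast a) (by exact_mod_cast b')
        (by exact_mod_cast b) (by exact_mod_cast c') (by exact_mod_cast c) (by exact_mod_cast h)
  · unfold gfun
    omega

lemma three_sectors (d : ℕ) (s t u : ℝ) (hs : 0 < s) (ht : 0 < t) (hu : 0 < u)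
    (hsum : s + t + u = d) :
    (sector d s t).card + (sector d t u).card + (sector d u s).card ≤ d + 1 := by
  have h1 := sector_bound d s t u hs ht hu hsum
  have h2 := sector_bound d t u s ht hu hs (by linarith)
  have h3 := sector_bound d u s t hu hs ht (by linarith)
  omega

end Pool.Agent.Lib.MP_c789b2_co
end

-- part Pool.Agent.Lib.MP_c789b2_co.Geom
section

/-!
Reduction of the lines through an interior point to lattice points on three hyperbolas.
-/

namespace Pool.Agent.Lib.MP_c789b2_co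

open Finset

lemma fin3_a : ∀ m : Fin 3, m + 2 + 1 = m := by decide
lemma fin3_b : ∀ m : Fin 3, m ≠ m + 1 := by decide
lemma fin3_c : ∀ m m' : Fin 3, m' = m ∨ m' = m + 2 ∨ m = m' + 2 := by decide
lemma fin3_d : ∀ i j : Fin 3, i ≠ j → j = i + 1 ∨ i = j + 1 := by decide
lemma fin3_e : ∀ m : Fin 3, m + 2 ≠ m := by decide
lemma fin3_f : ∀ m : Fin 3, m + 1 ≠ m + 2 := by decide

/-- The vertices of a plane triangle form an affine basis. -/
noncomputable def triBasis (T : Affine.Triangle ℝ Plane) : AffineBasis (Fin 3) ℝ Plane :=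
  ⟨T.points, T.independent, by
    rw [T.independent.affineSpan_eq_top_iff_card_eq_finrank_add_one]
    simp⟩

lemma triBasis_apply (T : Affine.Triangle ℝ Plane) (i : Fin 3) : triBasis T i = T.points i := rfl

/-- The marked point at distance `x / d` from vertex `i` towards vertex `j`. -/
noncomputable def mk (T : Affine.Triangle ℝ Plane) (d : ℕ) (i j : Fin 3) (x : ℕ) : Plane :=
  AffineMap.lineMap (T.points i) (T.points j) ((x : ℝ) / (d : ℝ))

lemma mk_rev (T : Affine.Triangle ℝ Plane) {d : ℕ} (hd : 0 < d) (i j : Fin 3) {x : ℕ}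
    (hx : x ≤ d) : mk T d i j x = mk T d j i (d - x) := by
  unfold mk
  have hd' : (d : ℝ) ≠ 0 := by positivity
  rw [← AffineMap.lineMap_apply_one_sub]
  congr 1
  rw [Nat.cast_sub hx]
  field_simp

lemma mk_mem_side (T : Affine.Triangle ℝ Plane) {d : ℕ} (hd : 0 < d) (i j : Fin 3) {x : ℕ}
    (hx : x ≤ d) : mk T d i j x ∈ side T i j := by
  unfold mk side
  rw [segment_eq_image_lineMap]
  have hd' : (0 : ℝ) < d := by positivity
  refine ⟨_, ⟨by positivity, ?_⟩, rfl⟩
  rw [div_le_one hd']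
  exact_mod_cast hx

lemma mk_zero (T : Affine.Triangle ℝ Plane) (d : ℕ) (i j : Fin 3) :
    mk T d i j 0 = T.points i := by
  simp [mk]

lemma mk_self (T : Affine.Triangle ℝ Plane) {d : ℕ} (hd : 0 < d) (i j : Fin 3) :
    mk T d i j d = T.points j := by
  have hd' : (d : ℝ) ≠ 0 := by positivity
  simp [mk, div_self hd']

lemma normal_form (T : Affine.Triangle ℝ Plane) {d : ℕ} (hd : 0 < d) {P : Plane}
    (hP : P ∈ markedPoints T d) :
    ∃ m : Fin 3, ∃ x : ℕ, 1 ≤ x ∧ x ≤ d ∧ P = mk T d m (m + 1) x := by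
  have aux : ∀ m : Fin 3, ∀ k : ℕ, k ≤ d →
      ∃ m' : Fin 3, ∃ x : ℕ, 1 ≤ x ∧ x ≤ d ∧ mk T d m (m + 1) k = mk T d m' (m' + 1) x := by
    intro m k hk
    rcases Nat.eq_zero_or_pos k with rfl | hk0
    · refine ⟨m + 2, d, hd, le_rfl, ?_⟩
      rw [mk_zero, mk_self T hd, fin3_a]
    · exact ⟨m, k, hk0, hk, rfl⟩
  obtain ⟨i, j, hij, k, hk, rfl⟩ := hP
  rcases fin3_d i j hij with rfl | rfl
  · exact aux i k hk
  · have := mk_rev T hd (j + 1) j hk
    unfold mk at this
    rw [this]
    exact aux j (d - k) (Nat.sub_le _ _)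

/-- The line attached to a lattice point of the sector at vertex `m`. -/
noncomputable def secLine (T : Affine.Triangle ℝ Plane) (d : ℕ) (m : Fin 3) (z : ℕ × ℕ) :
    AffineSubspace ℝ Plane :=
  affineSpan ℝ {mk T d m (m + 1) z.1, mk T d m (m + 2) z.2}

lemma coord_mk (T : Affine.Triangle ℝ Plane) (d : ℕ) (i j l : Fin 3) (x : ℕ) :
    (triBasis T).coord l (mk T d i j x) =
      (1 - (x : ℝ) / d) * (if l = i then 1 else 0) + (x : ℝ) / d * (if l = j then 1 else 0) := by
  unfold mk
  rw [AffineMap.apply_lineMap, ← triBasis_apply, ← triBasis_apply, AffineBasis.coord_apply,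
    AffineBasis.coord_apply, AffineMap.lineMap_apply_ring]

lemma mem_sector_of_mem (T : Affine.Triangle ℝ Plane) {d : ℕ} (hd : 0 < d) (m : Fin 3)
    {x y : ℕ} (hx1 : 1 ≤ x) (hx2 : x ≤ d) (hy1 : 1 ≤ y) (hy2 : y ≤ d - 1) {p : Plane}
    (hp : p ∈ secLine T d m (x, y)) :
    (x, y) ∈ sector d (d * (triBasis T).coord (m + 1) p) (d * (triBasis T).coord (m + 2) p) := by
  rw [mem_sector]
  refine ⟨⟨hx1, hx2⟩, ⟨hy1, hy2⟩, ?_⟩
  unfold secLine at hp
  obtain ⟨τ, rfl⟩ := mem_affineSpan_pair_iff_exists_lineMap_eq.1 hp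
  rw [AffineMap.apply_lineMap, AffineMap.apply_lineMap, coord_mk, coord_mk, coord_mk, coord_mk]
  have h1 : m + 1 ≠ m := (fin3_b m).symm
  have h2 : m + 2 ≠ m := fin3_e m
  have h3 : m + 1 ≠ m + 2 := fin3_f m
  have h4 : m + 2 ≠ m + 1 := h3.symm
  simp only [if_neg h1, if_neg h2, if_neg h3, if_neg h4, if_true, AffineMap.lineMap_apply_ring]
  have hd' : (d : ℝ) ≠ 0 := by positivity
  have hx' : (x : ℝ) ≠ 0 := by positivity
  have hy' : (y : ℝ) ≠ 0 := by positivity
  field_simp
  ring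

lemma exists_secLine (T : Affine.Triangle ℝ Plane) {d : ℕ} (hd : 0 < d)
    {L : AffineSubspace ℝ Plane} (hL : L ∈ wsLines T d) :
    ∃ m : Fin 3, ∃ x y : ℕ, 1 ≤ x ∧ x ≤ d ∧ 1 ≤ y ∧ y ≤ d - 1 ∧ L = secLine T d m (x, y) := by
  have aux : ∀ m : Fin 3, ∀ x x' : ℕ, 1 ≤ x → x ≤ d → 1 ≤ x' → x' ≤ d →
      (¬ ∃ i j : Fin 3, i ≠ j ∧ mk T d m (m + 1) x ∈ side T i j ∧
        mk T d (m + 2) (m + 2 + 1) x' ∈ side T i j) →
      ∃ y : ℕ, 1 ≤ y ∧ y ≤ d - 1 ∧
        affineSpan ℝ {mk T d m (m + 1) x, mk T d (m + 2) (m + 2 + 1) x'} =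
          secLine T d m (x, y) := by
    intro m x x' h1 h2 h3 h4 hno
    have e : m + 2 + 1 = m := fin3_a m
    rw [e] at hno ⊢
    rw [mk_rev T hd (m + 2) m h4] at hno ⊢
    refine ⟨d - x', ?_, by omega, rfl⟩
    by_contra hcon
    have h0 : d - x' = 0 := by omega
    apply hno
    refine ⟨m, m + 1, fin3_b m, mk_mem_side T hd _ _ h2, ?_⟩
    rw [h0, mk_zero]
    exact left_mem_segment _ _ _
  obtain ⟨P, hP, Q, hQ, hno, rfl⟩ := hL
  obtain ⟨m, x, hx1, hx2, rfl⟩ := normal_form T hd hP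
  obtain ⟨m', x', hx1', hx2', rfl⟩ := normal_form T hd hQ
  rcases fin3_c m m' with rfl | rfl | rfl
  · exfalso
    apply hno
    exact ⟨m', m' + 1, fin3_b m', mk_mem_side T hd _ _ hx2, mk_mem_side T hd _ _ hx2'⟩
  · obtain ⟨y, a, b, c⟩ := aux m x x' hx1 hx2 hx1' hx2' hno
    exact ⟨m, x, y, hx1, hx2, a, b, c⟩
  · obtain ⟨y, a, b, c⟩ := aux m' x' x hx1' hx2' hx1 hx2 (by
      rintro ⟨i, j, hij, h1, h2⟩
      exact hno ⟨i, j, hij, h2, h1⟩)
    refine ⟨m', x', y, hx1', hx2', a, b, ?_⟩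
    rw [← c, Set.pair_comm]

lemma coord_pos_of_interior (T : Affine.Triangle ℝ Plane) {p : Plane}
    (hp : p ∈ interior (convexHull ℝ (Set.range T.points))) (i : Fin 3) :
    0 < (triBasis T).coord i p := by
  have h := (triBasis T).interior_convexHull
  have e : Set.range (triBasis T) = Set.range T.points := rfl
  rw [e] at h
  rw [h] at hp
  exact hp i

lemma degree_le_sectors (T : Affine.Triangle ℝ Plane) {d : ℕ} (hd : 0 < d) (p : Plane) :
    degree T d p ≤
      (((sector d (d * (triBasis T).coord 1 p) (d * (triBasis T).coord 2 p)).card +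
        (sector d (d * (triBasis T).coord 2 p) (d * (triBasis T).coord 0 p)).card +
        (sector d (d * (triBasis T).coord 0 p) (d * (triBasis T).coord 1 p)).card : ℕ) : ℕ∞) := by
  classical
  set S0 := sector d (d * (triBasis T).coord 1 p) (d * (triBasis T).coord 2 p)
  set S1 := sector d (d * (triBasis T).coord 2 p) (d * (triBasis T).coord 0 p)
  set S2 := sector d (d * (triBasis T).coord 0 p) (d * (triBasis T).coord 1 p)
  have hsub : {L ∈ wsLines T d | p ∈ L} ⊆
      ((S0.image (secLine T d 0) ∪ S1.image (secLine T d 1) ∪ S2.image (secLine T d 2) :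
        Finset _) : Set _) := by
    rintro L ⟨hL, hp⟩
    obtain ⟨m, x, y, h1, h2, h3, h4, rfl⟩ := exists_secLine T hd hL
    have := mem_sector_of_mem T hd m h1 h2 h3 h4 hp
    simp only [coe_union, coe_image, Set.mem_union, Set.mem_image, mem_coe]
    fin_cases m
    · left; left; exact ⟨_, this, rfl⟩
    · left; right; exact ⟨_, this, rfl⟩
    · right; exact ⟨_, this, rfl⟩
  unfold degree
  refine (Set.encard_le_encard hsub).trans ?_
  rw [Set.encard_coe_eq_coe_finsetCard]
  norm_cast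
  refine (card_union_le _ _).trans ?_
  refine Nat.add_le_add ((card_union_le _ _).trans ?_) card_image_le
  exact Nat.add_le_add card_image_le card_image_le

theorem degree_le (T : Affine.Triangle ℝ Plane) {d : ℕ} (hd : 0 < d) {p : Plane}
    (hp : p ∈ interior (convexHull ℝ (Set.range T.points))) :
    degree T d p ≤ (d : ℕ∞) + 1 := by
  refine (degree_le_sectors T hd p).trans ?_
  have hd' : (0 : ℝ) < d := by positivity
  have h0 := coord_pos_of_interior T hp 0
  have h1 := coord_pos_of_interior T hp 1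
  have h2 := coord_pos_of_interior T hp 2
  have hsum := (triBasis T).sum_coord_apply_eq_one p
  rw [Fin.sum_univ_three] at hsum
  have := three_sectors d (d * (triBasis T).coord 1 p) (d * (triBasis T).coord 2 p)
    (d * (triBasis T).coord 0 p) (by positivity) (by positivity) (by positivity)
    (by rw [← mul_add, ← mul_add]
        have : (triBasis T).coord 1 p + (triBasis T).coord 2 p + (triBasis T).coord 0 p = 1 := by
          linarith
        rw [this, mul_one])
  exact_mod_cast this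

end Pool.Agent.Lib.MP_c789b2_co
end
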