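import Pool.Agent.Lib.MP_c789b2_co.Defs

/-!
The maximal degree of an interior point, and the maximal number of divisors.
-/

namespace Pool.Agent.Lib.MP_c789b2_co

/-- `mu T d`: the largest degree (in `ℕ∞`) of an interior point of the triangle `T`. -/
noncomputable def mu (T : Affine.Triangle ℝ Plane) (d : ℕ) : ℕ∞ :=
  ⨆ p ∈ interior (convexHull ℝ (Set.range T.points)), degree T d p

/-- `maxTau X`: the largest number of positive divisors of an integer `m` with `1 ≤ m ≤ X`. -/
def maxTau (X : ℕ) : ℕ := (Finset.Icc 1 X).sup fun m => m.divisors.card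

end Pool.Agent.Lib.MP_c789b2_co
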