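import Pool.Agent.Lib.MP_c789b2_co.Geom
import Pool.Agent.Lib.MP_c789b2_co.Mu

/-!
Order of growth of the maximal degree in the Wang-Shi split.
-/

namespace Pool.Agent.Lib.MP_c789b2_co

open Finset

/-! ### Divisor function basics -/

lemma tau_mul_le (m n : ℕ) : (m * n).divisors.card ≤ m.divisors.card * n.divisors.card := by
  rw [Nat.divisors_mul]; exact Finset.card_mul_le

lemma tau_le_maxTau {m X : ℕ} (h1 : 1 ≤ m) (h2 : m ≤ X) : m.divisors.card ≤ maxTau X :=
  Finset.le_sup (f := fun m => m.divisors.card) (mem_Icc.2 ⟨h1, h2⟩)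

lemma one_le_maxTau {X : ℕ} (h : 1 ≤ X) : 1 ≤ maxTau X := by
  simpa using tau_le_maxTau le_rfl h

lemma tau_prime {p : ℕ} (hp : p.Prime) : p.divisors.card = 2 := by
  rw [hp.divisors, card_pair hp.one_lt.ne]

/-- Splitting off a divisor just above `X`. -/
lemma exists_split (n X : ℕ) (hn : 0 < n) (hX : 1 ≤ X) :
    ∃ n1 n2 : ℕ, n = n1 * n2 ∧ n2.divisors.card ≤ 2 * maxTau X ∧ (n1 = 1 ∨ X ≤ n2) := by
  classical
  by_cases h : ∃ m, m ∣ n ∧ X < m
  · have hm := Nat.find_spec h
    set m := Nat.find h with hmdef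
    obtain ⟨⟨n1, hn1⟩, hXm⟩ := hm
    have hm1 : m ≠ 1 := by omega
    obtain ⟨P, hP, ⟨n3, hn3⟩⟩ := Nat.exists_prime_and_dvd hm1
    have hm0 : 0 < m := by omega
    have h30 : 0 < n3 := by
      rcases Nat.eq_zero_or_pos n3 with h0 | h0
      · rw [h0] at hn3; omega
      · exact h0
    have hlt : n3 < m := by
      rw [hn3]; exact lt_mul_of_one_lt_left h30 hP.one_lt
    have hle : n3 ≤ X := by
      by_contra hcon
      have := Nat.find_min h (m := n3) hlt
      exact this ⟨Dvd.dvd.trans (Dvd.intro_left P hn3.symm) ⟨n1, hn1⟩, by omega⟩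
    refine ⟨n1, m, by rw [hn1, mul_comm], ?_, Or.inr hXm.le⟩
    rw [hn3]
    refine (tau_mul_le _ _).trans ?_
    rw [tau_prime hP]
    exact Nat.mul_le_mul_left _ (tau_le_maxTau h30 hle)
  · refine ⟨1, n, by simp, ?_, Or.inl rfl⟩
    have : n ≤ X := by
      by_contra hcon
      exact h ⟨n, dvd_rfl, by omega⟩
    have := tau_le_maxTau hn this
    omega

/-- Two factorizations `u w = u' w' = n1 n2` in the same residue classes and with the same
gcd with `n2` coincide. -/
lemma eq_of_gcd_eq_aux {q d g h A B n1 n2 : ℕ} (hq : 0 < q) (hB : 0 < B)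
    (hn : g * h * A * B = n1 * n2) (hAB : A * B ∣ n1) (hn1 : 0 < n1)
    (hu : g * A < q * d) (hw : h * A < q * d) (hdvd : (q : ℤ) ∣ (A : ℤ) - B)
    (hs : n1 = 1 ∨ d ^ 2 ≤ n2) : ¬ B < A := by
  intro hlt
  have hqA : q < A := by
    have h1 : (0 : ℤ) < (A : ℤ) - B := by omega
    have := Int.le_of_dvd h1 hdvd
    omega
  have hle : A * B ≤ n1 := Nat.le_of_dvd hn1 hAB
  rcases hs with h1 | h2
  · have : A * B ≤ 1 := h1 ▸ hle
    nlinarith
  · have hA : 0 < A := by omega
    have h3 : (g * A) * (h * A) < (q * d) * (q * d) := Nat.mul_lt_mul'' hu hw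
    have h4 : (q * d) * (q * d) ≤ (A * d) * (A * d) :=
      Nat.mul_le_mul (Nat.mul_le_mul_right _ hqA.le) (Nat.mul_le_mul_right _ hqA.le)
    have h5 : g * h < d ^ 2 := by
      have : (g * h) * (A * A) < d ^ 2 * (A * A) := by nlinarith
      exact lt_of_mul_lt_mul_right this (Nat.zero_le _)
    have h6 : g * h * (A * B) < d ^ 2 * (A * B) :=
      Nat.mul_lt_mul_of_pos_right h5 (Nat.mul_pos hA hB)
    have h7 : d ^ 2 * (A * B) ≤ n2 * n1 := Nat.mul_le_mul h2 hle
    nlinarith

lemma eq_of_gcd_eq {q d a b u w u' w' n1 n2 : ℕ} (hq : 0 < q) (ha : 0 < a) (hb : 0 < b)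
    (hcop : Nat.Coprime (Nat.gcd a b) q) (hn : a * b = n1 * n2)
    (h1 : u * w = a * b) (h2 : u' * w' = a * b)
    (hu : q ∣ u + a) (hw : q ∣ w + b) (hu' : q ∣ u' + a) (hw' : q ∣ w' + b)
    (bu : u < q * d) (bw : w < q * d) (bu' : u' < q * d) (bw' : w' < q * d)
    (hs : n1 = 1 ∨ d ^ 2 ≤ n2) (hg : Nat.gcd u n2 = Nat.gcd u' n2) : u = u' := by
  have hab : 0 < a * b := Nat.mul_pos ha hb
  have hu0 : 0 < u := Nat.pos_of_mul_pos_right (h1 ▸ hab) |> fun h => by
    rcases Nat.eq_zero_or_pos u with h0 | h0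
    · rw [h0] at h1; omega
    · exact h0
  have hu0' : 0 < u' := by
    rcases Nat.eq_zero_or_pos u' with h0 | h0
    · rw [h0] at h2; omega
    · exact h0
  have hn1 : 0 < n1 := by
    rcases Nat.eq_zero_or_pos n1 with h0 | h0
    · rw [h0] at hn; omega
    · exact h0
  obtain ⟨A, B, hAB, hA, hB⟩ := Nat.exists_coprime u u'
  set g := Nat.gcd u u' with hgdef
  have hg0 : 0 < g := Nat.gcd_pos_of_pos_left _ hu0
  have hA0 : 0 < A := by
    rcases Nat.eq_zero_or_pos A with h0 | h0
    · rw [h0] at hA; omega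
    · exact h0
  have hB0 : 0 < B := by
    rcases Nat.eq_zero_or_pos B with h0 | h0
    · rw [h0] at hB; omega
    · exact h0
  have hAw : A * w = B * w' := by
    have : g * (A * w) = g * (B * w') := by
      calc g * (A * w) = u * w := by rw [hA]; ring
        _ = u' * w' := by rw [h1, h2]
        _ = g * (B * w') := by rw [hB]; ring
    exact Nat.eq_of_mul_eq_mul_left hg0 this
  have hBw : B ∣ w := hAB.symm.dvd_of_dvd_mul_left ⟨w', hAw⟩
  obtain ⟨h, hh⟩ := hBw
  have hw'e : w' = A * h := by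
    have : B * w' = B * (A * h) := by rw [← hAw, hh]; ring
    exact Nat.eq_of_mul_eq_mul_left hB0 this
  -- `A` and `B` divide `n1`
  have key : ∀ v : ℕ, 0 < v → v ∣ n1 * n2 → v / Nat.gcd v n2 ∣ n1 := by
    intro v hv hvd
    have hc : 0 < Nat.gcd v n2 := Nat.gcd_pos_of_pos_left _ hv
    have hco := Nat.coprime_div_gcd_div_gcd hc
    apply hco.dvd_of_dvd_mul_right
    have e1 : v = v / Nat.gcd v n2 * Nat.gcd v n2 := (Nat.div_mul_cancel (Nat.gcd_dvd_left _ _)).symm
    have e2 : n2 = n2 / Nat.gcd v n2 * Nat.gcd v n2 :=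
      (Nat.div_mul_cancel (Nat.gcd_dvd_right _ _)).symm
    apply Nat.dvd_of_mul_dvd_mul_right hc
    rw [← e1, mul_assoc, ← e2]
    exact hvd
  set c := Nat.gcd u n2 with hc
  have hc0 : 0 < c := Nat.gcd_pos_of_pos_left _ hu0
  have hcg : c ∣ g := Nat.dvd_gcd (Nat.gcd_dvd_left _ _) (hg ▸ Nat.gcd_dvd_left _ _)
  obtain ⟨k, hk⟩ := hcg
  have hAd : A ∣ n1 := by
    have := key u hu0 (hn ▸ h1 ▸ Dvd.intro _ rfl)
    rw [← hc] at this
    refine Dvd.dvd.trans ⟨k, ?_⟩ this
    rw [hA, hk]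
    rw [show A * (c * k) = c * (A * k) by ring, Nat.mul_div_cancel_left _ hc0]
  have hBd : B ∣ n1 := by
    have := key u' hu0' (hn ▸ h2 ▸ Dvd.intro _ rfl)
    rw [← hg] at this
    refine Dvd.dvd.trans ⟨k, ?_⟩ this
    rw [hB, hk]
    rw [show B * (c * k) = c * (B * k) by ring, Nat.mul_div_cancel_left _ hc0]
  have hABd : A * B ∣ n1 := hAB.mul_dvd_of_dvd_of_dvd hAd hBd
  -- `q` divides `A - B`
  have hgh : Nat.Coprime (Nat.gcd g h) q := by
    apply Nat.Coprime.symm
    rw [Nat.coprime_comm]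
    apply Nat.coprime_of_dvd
    intro r hr hr1 hr2
    have r1 : r ∣ u := by rw [hA]; exact Dvd.dvd.mul_left (hr1.trans (Nat.gcd_dvd_left _ _)) _
    have r2 : r ∣ w := by rw [hh]; exact Dvd.dvd.mul_left (hr1.trans (Nat.gcd_dvd_right _ _)) _
    have r3 : r ∣ a := (Nat.dvd_add_right r1).1 (hr2.trans hu)
    have r4 : r ∣ b := (Nat.dvd_add_right r2).1 (hr2.trans hw)
    have := Nat.eq_one_of_dvd_coprimes hcop (Nat.dvd_gcd r3 r4) hr2
    exact hr.one_lt.ne' this
  have d1 : (q : ℤ) ∣ (g : ℤ) * ((A : ℤ) - B) := by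
    have e : (g : ℤ) * ((A : ℤ) - B) = ((u + a : ℕ) : ℤ) - ((u' + a : ℕ) : ℤ) := by
      rw [hA, hB]; push_cast; ring
    rw [e]
    exact dvd_sub (Int.natCast_dvd_natCast.2 hu) (Int.natCast_dvd_natCast.2 hu')
  have d2 : (q : ℤ) ∣ (h : ℤ) * ((A : ℤ) - B) := by
    have e : (h : ℤ) * ((A : ℤ) - B) = ((w' + b : ℕ) : ℤ) - ((w + b : ℕ) : ℤ) := by
      rw [hw'e, hh]; push_cast; ring
    rw [e]
    exact dvd_sub (Int.natCast_dvd_natCast.2 hw') (Int.natCast_dvd_natCast.2 hw)
  have d3 : (q : ℤ) ∣ (A : ℤ) - B := by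
    have e : ((Nat.gcd g h : ℕ) : ℤ) * ((A : ℤ) - B) =
        (g : ℤ) * ((A : ℤ) - B) * Nat.gcdA g h + (h : ℤ) * ((A : ℤ) - B) * Nat.gcdB g h := by
      rw [Nat.gcd_eq_gcd_ab]; ring
    have d4 : (q : ℤ) ∣ ((Nat.gcd g h : ℕ) : ℤ) * ((A : ℤ) - B) := by
      rw [e]; exact dvd_add (d1.mul_right _) (d2.mul_right _)
    exact (Nat.isCoprime_iff_coprime.2 hgh.symm).dvd_of_dvd_mul_left d4
  have hprod : g * h * A * B = n1 * n2 := by
    rw [← hn, ← h1, hA, hh]; ring
  have n1' := eq_of_gcd_eq_aux (d := d) hq hB0 hprod hABd hn1 (by rw [mul_comm, ← hA]; exact bu)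
    (by rw [mul_comm, ← hw'e]; exact bw') d3 hs
  have n2' := eq_of_gcd_eq_aux (d := d) (g := g) (h := h) (A := B) (B := A) hq hA0
    (by rw [← hprod]; ring) (by rw [mul_comm]; exact hABd) hn1
    (by rw [mul_comm, ← hB]; exact bu') (by rw [mul_comm, ← hh]; exact bw)
    (by have := d3.neg_right; rwa [neg_sub] at this) hs
  have : A = B := by omega
  rw [hA, hB, this]

/-- Two lattice points on the hyperbola force rational parameters. -/
lemma exists_rat {s t : ℝ} (hs : 0 < s) (ht : 0 < t) {x y x' y' : ℕ} (hx : 0 < x) (hy : 0 < y)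
    (hx' : 0 < x') (hy' : 0 < y') (h : s / x + t / y = 1) (h' : s / x' + t / y' = 1)
    (hne : (x, y) ≠ (x', y')) :
    ∃ a b q : ℕ, 0 < q ∧ Nat.Coprime (Nat.gcd a b) q ∧ s * q = a ∧ t * q = b := by
  have hxr : (0 : ℝ) < x := by exact_mod_cast hx
  have hyr : (0 : ℝ) < y := by exact_mod_cast hy
  have hxr' : (0 : ℝ) < x' := by exact_mod_cast hx'
  have hyr' : (0 : ℝ) < y' := by exact_mod_cast hy'
  have e1 : s * y + t * x = x * y := by field_simp at h; linarith
  have e2 : s * y' + t * x' = x' * y' := by field_simp at h'; linarith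
  have hD : (y : ℤ) * x' - y' * x ≠ 0 := by
    intro h0
    have h0' : (y : ℝ) * x' = y' * x := by
      have : (((y : ℤ) * x' - y' * x : ℤ) : ℝ) = 0 := by rw [h0]; simp
      push_cast at this; linarith
    have e3 : (x : ℝ) * x' * (y - y') = 0 := by
      have : s * (y * x' - y' * x) = x * x' * (y - y') := by
        linear_combination (x' : ℝ) * e1 - (x : ℝ) * e2
      rw [← this, h0']; ring
    have hyy : (y : ℝ) = y' := by
      rcases mul_eq_zero.1 e3 with h1 | h1
      · exact absurd h1 (by positivity)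
      · linarith
    have hxx : (x : ℝ) = x' := by
      rw [hyy] at h0'
      exact (mul_left_cancel₀ hyr'.ne' h0').symm
    exact hne (Prod.ext (by exact_mod_cast hxx) (by exact_mod_cast hyy))
  set D : ℤ := (y : ℤ) * x' - y' * x with hDdef
  have hs' : s * D = (((x : ℤ) * x' * (y - y') : ℤ) : ℝ) := by
    rw [hDdef]; push_cast
    linear_combination (x' : ℝ) * e1 - (x : ℝ) * e2
  have ht' : t * D = (((y : ℤ) * y' * (x' - x) : ℤ) : ℝ) := by
    rw [hDdef]; push_cast
    linear_combination (y : ℝ) * e2 - (y' : ℝ) * e1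
  have hnat : ∀ (r : ℝ) (z : ℤ), 0 < r → r * D = z → r * (D.natAbs : ℕ) = (z.natAbs : ℕ) := by
    intro r z hr hz
    rw [Nat.cast_natAbs, Nat.cast_natAbs]
    push_cast
    rw [← hz, abs_mul, abs_of_pos hr]
  have h1 := hnat s _ hs hs'
  have h2 := hnat t _ ht ht'
  set a0 := ((x : ℤ) * x' * (y - y')).natAbs
  set b0 := ((y : ℤ) * y' * (x' - x)).natAbs
  set q0 := D.natAbs
  have hq0 : 0 < q0 := Int.natAbs_pos.2 hD
  set g := Nat.gcd (Nat.gcd a0 b0) q0 with hg
  have hg0 : 0 < g := Nat.gcd_pos_of_pos_right _ hq0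
  obtain ⟨a, ha⟩ : g ∣ a0 := (Nat.gcd_dvd_left _ _).trans (Nat.gcd_dvd_left _ _)
  obtain ⟨b, hb⟩ : g ∣ b0 := (Nat.gcd_dvd_left _ _).trans (Nat.gcd_dvd_right _ _)
  obtain ⟨q, hq⟩ : g ∣ q0 := Nat.gcd_dvd_right _ _
  have hgr : (g : ℝ) ≠ 0 := by positivity
  refine ⟨a, b, q, ?_, ?_, ?_, ?_⟩
  · rcases Nat.eq_zero_or_pos q with h0 | h0
    · rw [h0] at hq; omega
    · exact h0
  · have : g * Nat.gcd (Nat.gcd a b) q = g * 1 := by
      rw [← Nat.gcd_mul_left, ← Nat.gcd_mul_left, ← ha, ← hb, ← hq, mul_one]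
    exact Nat.eq_of_mul_eq_mul_left hg0 this
  · apply mul_left_cancel₀ hgr
    rw [ha, hq] at h1; push_cast at h1; linarith
  · apply mul_left_cancel₀ hgr
    rw [hb, hq] at h2; push_cast at h2; linarith

theorem sector_le_maxTau {d : ℕ} (hd : 1 ≤ d) {s t : ℝ} (hs : 0 < s) (ht : 0 < t) :
    (sector d s t).card ≤ 2 * maxTau (d ^ 2) := by
  classical
  have hd2 : 1 ≤ d ^ 2 := Nat.one_le_pow _ _ hd
  by_cases hc : (sector d s t).card ≤ 1
  · have := one_le_maxTau hd2
    omega
  obtain ⟨z, hz, z', hz', hne⟩ := Finset.one_lt_card.1 (not_le.1 hc)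
  obtain ⟨⟨h1, -⟩, ⟨h2, -⟩, h3⟩ := mem_sector.1 hz
  obtain ⟨⟨h1', -⟩, ⟨h2', -⟩, h3'⟩ := mem_sector.1 hz'
  obtain ⟨a, b, q, hq, hcop, ha, hb⟩ := exists_rat hs ht h1 h2 h1' h2' h3 h3' hne
  have hqr : (0 : ℝ) < q := by exact_mod_cast hq
  have ha0 : 0 < a := by
    have : (0 : ℝ) < a := by rw [← ha]; positivity
    exact_mod_cast this
  have hb0 : 0 < b := by
    have : (0 : ℝ) < b := by rw [← hb]; positivity
    exact_mod_cast this
  have fact : ∀ z ∈ sector d s t, a < q * z.1 ∧ b < q * z.2 ∧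
      (q * z.1 - a) * (q * z.2 - b) = a * b ∧ z.1 ≤ d ∧ z.2 ≤ d ∧ s / z.1 + t / z.2 = 1 ∧
      0 < z.1 ∧ 0 < z.2 := by
    intro z hz
    obtain ⟨⟨k1, k2⟩, ⟨k3, k4⟩, k5⟩ := mem_sector.1 hz
    obtain ⟨l1, l2, l3⟩ := hyp_of_eq hs ht (by exact_mod_cast k1) (by exact_mod_cast k3) k5
    have m1 : a < q * z.1 := by
      have : (a : ℝ) < q * z.1 := by rw [← ha]; nlinarith
      exact_mod_cast this
    have m2 : b < q * z.2 := by
      have : (b : ℝ) < q * z.2 := by rw [← hb]; nlinarith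
      exact_mod_cast this
    refine ⟨m1, m2, ?_, k2, by omega, k5, k1, k3⟩
    have : (((q * z.1 - a) * (q * z.2 - b) : ℕ) : ℝ) = ((a * b : ℕ) : ℝ) := by
      push_cast [Nat.cast_sub m1.le, Nat.cast_sub m2.le]
      rw [← ha, ← hb]
      linear_combination (q : ℝ) ^ 2 * l3
    exact_mod_cast this
  obtain ⟨n1, n2, hn, htau, hsplit⟩ := exists_split (a * b) (d ^ 2) (Nat.mul_pos ha0 hb0) hd2
  refine le_trans ?_ htau
  have hn2 : n2 ≠ 0 := by
    rintro rfl
    have := Nat.mul_pos ha0 hb0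
    omega
  apply Finset.card_le_card_of_injOn (fun z => Nat.gcd (q * z.1 - a) n2)
  · intro z _
    simp only [mem_coe, Nat.mem_divisors]
    exact ⟨Nat.gcd_dvd_right _ _, hn2⟩
  · intro z hz z' hz' hzz
    obtain ⟨m1, m2, m3, m4, m5, m6, m7, m8⟩ := fact z hz
    obtain ⟨m1', m2', m3', m4', m5', m6', m7', m8'⟩ := fact z' hz'
    have b1 := Nat.mul_le_mul_left q m4
    have b2 := Nat.mul_le_mul_left q m5
    have b3 := Nat.mul_le_mul_left q m4'
    have b4 := Nat.mul_le_mul_left q m5'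
    have := eq_of_gcd_eq (d := d) hq ha0 hb0 hcop hn m3 m3'
      (by rw [Nat.sub_add_cancel m1.le]; exact Dvd.intro _ rfl)
      (by rw [Nat.sub_add_cancel m2.le]; exact Dvd.intro _ rfl)
      (by rw [Nat.sub_add_cancel m1'.le]; exact Dvd.intro _ rfl)
      (by rw [Nat.sub_add_cancel m2'.le]; exact Dvd.intro _ rfl)
      (by omega) (by omega) (by omega) (by omega) hsplit hzz
    have hx : z.1 = z'.1 := Nat.eq_of_mul_eq_mul_left hq (by omega)
    have hu : 0 < q * z.1 - a := by omega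
    have hy : z.2 = z'.2 := by
      rw [← this] at m3'
      have := Nat.eq_of_mul_eq_mul_left hu (m3.trans m3'.symm)
      exact Nat.eq_of_mul_eq_mul_left hq (by omega)
    exact Prod.ext hx hy

theorem mu_le (T : Affine.Triangle ℝ Plane) {d : ℕ} (hd : 1 ≤ d) :
    mu T d ≤ ((6 * maxTau (d ^ 2) : ℕ) : ℕ∞) := by
  unfold mu
  refine iSup₂_le fun p hp => (degree_le_sectors T hd p).trans ?_
  have hd' : (0 : ℝ) < d := by exact_mod_cast hd
  have h0 := coord_pos_of_interior T hp 0
  have h1 := coord_pos_of_interior T hp 1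
  have h2 := coord_pos_of_interior T hp 2
  have a0 := sector_le_maxTau hd (mul_pos hd' h1) (mul_pos hd' h2)
  have a1 := sector_le_maxTau hd (mul_pos hd' h2) (mul_pos hd' h0)
  have a2 := sector_le_maxTau hd (mul_pos hd' h0) (mul_pos hd' h1)
  exact_mod_cast (by omega)

/-! ### Lower bound from divisors: a lattice point -/

lemma fin3_pairs : ∀ i j : Fin 3, i ≠ j → (i ≠ 0 ∧ j ≠ 0) ∨ (i ≠ 1 ∧ j ≠ 1) ∨ (i ≠ 2 ∧ j ≠ 2) := by
  decide

lemma coord_eq_zero_of_mem_side (T : Affine.Triangle ℝ Plane) {i j l : Fin 3} (hi : i ≠ l)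
    (hj : j ≠ l) {P : Plane} (hP : P ∈ side T i j) : (triBasis T).coord l P = 0 := by
  unfold side at hP
  rw [segment_eq_image_lineMap] at hP
  obtain ⟨τ, -, rfl⟩ := hP
  rw [AffineMap.apply_lineMap, ← triBasis_apply, ← triBasis_apply,
    AffineBasis.coord_apply_ne _ hi.symm, AffineBasis.coord_apply_ne _ hj.symm]
  simp

lemma secLine_mem (T : Affine.Triangle ℝ Plane) {d x y : ℕ} (hx1 : 1 ≤ x) (hx2 : x < d)
    (hy1 : 1 ≤ y) (hy2 : y < d) : secLine T d 0 (x, y) ∈ wsLines T d := by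
  have hd : (0 : ℝ) < d := by exact_mod_cast (by omega : 0 < d)
  have hxr : (0 : ℝ) < x := by exact_mod_cast hx1
  have hyr : (0 : ℝ) < y := by exact_mod_cast hy1
  have hxd : (x : ℝ) < d := by exact_mod_cast hx2
  refine ⟨mk T d 0 1 x, ⟨0, 1, by decide, x, hx2.le, rfl⟩, mk T d 0 2 y,
    ⟨0, 2, by decide, y, hy2.le, rfl⟩, ?_, rfl⟩
  rintro ⟨i, j, hij, h1, h2⟩
  rcases fin3_pairs i j hij with ⟨a, b⟩ | ⟨a, b⟩ | ⟨a, b⟩
  · have := coord_eq_zero_of_mem_side T a b h1
    rw [coord_mk] at this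
    simp only [if_true, show (0 : Fin 3) ≠ 1 by decide, if_false, mul_one, mul_zero,
      add_zero] at this
    have h3 : (x : ℝ) / d < 1 := (div_lt_one hd).2 hxd
    linarith
  · have := coord_eq_zero_of_mem_side T a b h1
    rw [coord_mk] at this
    simp only [if_true, show (1 : Fin 3) ≠ 0 by decide, if_false, mul_one, mul_zero,
      zero_add] at this
    have h3 : 0 < (x : ℝ) / d := by positivity
    linarith
  · have := coord_eq_zero_of_mem_side T a b h2
    rw [coord_mk] at this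
    simp only [if_true, show (2 : Fin 3) ≠ 0 by decide, if_false, mul_one, mul_zero,
      zero_add] at this
    have h3 : 0 < (y : ℝ) / d := by positivity
    linarith

lemma coord_of_mem_secLine (T : Affine.Triangle ℝ Plane) {d x y : ℕ} (τ : ℝ) :
    (triBasis T).coord 1 (AffineMap.lineMap (mk T d 0 1 x) (mk T d 0 2 y) τ) =
      (1 - τ) * ((x : ℝ) / d) ∧
    (triBasis T).coord 2 (AffineMap.lineMap (mk T d 0 1 x) (mk T d 0 2 y) τ) =
      τ * ((y : ℝ) / d) := by
  constructor
  · rw [AffineMap.apply_lineMap, coord_mk, coord_mk, AffineMap.lineMap_apply_ring]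
    simp only [if_true, show (1 : Fin 3) ≠ 0 by decide, show (1 : Fin 3) ≠ 2 by decide, if_false]
    ring
  · rw [AffineMap.apply_lineMap, coord_mk, coord_mk, AffineMap.lineMap_apply_ring]
    simp only [if_true, show (2 : Fin 3) ≠ 0 by decide, show (2 : Fin 3) ≠ 1 by decide, if_false]
    ring

lemma eq_of_coord (T : Affine.Triangle ℝ Plane) {P Q : Plane}
    (h1 : (triBasis T).coord 1 P = (triBasis T).coord 1 Q)
    (h2 : (triBasis T).coord 2 P = (triBasis T).coord 2 Q) : P = Q := by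
  have s1 := (triBasis T).sum_coord_apply_eq_one P
  have s2 := (triBasis T).sum_coord_apply_eq_one Q
  rw [Fin.sum_univ_three] at s1 s2
  apply (triBasis T).ext_elem
  intro i
  fin_cases i
  · show (triBasis T).coord 0 P = (triBasis T).coord 0 Q
    linarith
  · exact h1
  · exact h2

theorem card_le_mu (T : Affine.Triangle ℝ Plane) {d a b : ℕ} (ha : 1 ≤ a) (hb : 1 ≤ b)
    (hab : a + b < d) (U : Finset ℕ)
    (hU : ∀ u ∈ U, ∃ w : ℕ, u * w = a * b ∧ a + u < d ∧ b + w < d) :
    (U.card : ℕ∞) ≤ mu T d := by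
  classical
  have hd : (0 : ℝ) < d := by exact_mod_cast (by omega : 0 < d)
  have har : (0 : ℝ) < a := by exact_mod_cast ha
  have hbr : (0 : ℝ) < b := by exact_mod_cast hb
  have habr : (a : ℝ) + b < d := by exact_mod_cast hab
  set p : Plane := AffineMap.lineMap (mk T d 0 1 (a + b)) (mk T d 0 2 (a + b))
    ((b : ℝ) / (a + b)) with hp
  obtain ⟨c1, c2⟩ := coord_of_mem_secLine T (d := d) (x := a + b) (y := a + b) ((b : ℝ) / (a + b))
  rw [← hp] at c1 c2
  have c1' : (triBasis T).coord 1 p = a / d := by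
    rw [c1]; push_cast; field_simp; ring
  have c2' : (triBasis T).coord 2 p = b / d := by
    rw [c2]; push_cast; field_simp
  have hint : p ∈ interior (convexHull ℝ (Set.range T.points)) := by
    have h := (triBasis T).interior_convexHull
    have e : Set.range (triBasis T) = Set.range T.points := rfl
    rw [e] at h
    rw [h]
    have s1 := (triBasis T).sum_coord_apply_eq_one p
    rw [Fin.sum_univ_three, c1', c2'] at s1
    intro i
    fin_cases i
    · show 0 < (triBasis T).coord 0 p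
      have : (a : ℝ) / d + b / d < 1 := by rw [← add_div, div_lt_one hd]; exact habr
      linarith
    · show 0 < (triBasis T).coord 1 p
      rw [c1']; positivity
    · show 0 < (triBasis T).coord 2 p
      rw [c2']; positivity
  have hab0 : 0 < a * b := Nat.mul_pos ha hb
  choose! w hw using hU
  refine le_trans ?_ (le_iSup₂_of_le p hint le_rfl)
  unfold degree
  rw [← Set.encard_coe_eq_coe_finsetCard]
  apply Set.encard_le_encard_of_injOn (f := fun u => secLine T d 0 (a + u, b + w u))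
  · intro u hu
    obtain ⟨h1, h2, h3⟩ := hw u hu
    refine ⟨secLine_mem T (by omega) h2 (by omega) h3, ?_⟩
    unfold secLine
    apply mem_affineSpan_pair_iff_exists_lineMap_eq.2
    refine ⟨(b : ℝ) / (b + w u), ?_⟩
    obtain ⟨e1, e2⟩ := coord_of_mem_secLine T (d := d) (x := a + u) (y := b + w u)
      ((b : ℝ) / (b + w u))
    have hwr : (0 : ℝ) ≤ w u := by positivity
    have h1r : (u : ℝ) * w u = a * b := by exact_mod_cast h1
    apply eq_of_coord T
    · rw [c1']
      refine e1.trans ?_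
      push_cast
      field_simp
      linear_combination h1r
    · rw [c2']
      refine e2.trans ?_
      push_cast
      field_simp
  · intro u hu u' hu' h
    obtain ⟨h1, h2, h3⟩ := hw u hu
    have hmem : mk T d 0 1 (a + u') ∈ secLine T d 0 (a + u, b + w u) := by
      simp only at h
      rw [h]
      exact left_mem_affineSpan_pair ℝ _ _
    unfold secLine at hmem
    obtain ⟨τ, hτ⟩ := mem_affineSpan_pair_iff_exists_lineMap_eq.1 hmem
    obtain ⟨e1, e2⟩ := coord_of_mem_secLine T (d := d) (x := a + u) (y := b + w u) τ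
    have hτ' : AffineMap.lineMap (mk T d 0 1 (a + u)) (mk T d 0 2 (b + w u)) τ =
        mk T d 0 1 (a + u') := hτ
    rw [hτ', coord_mk] at e1 e2
    simp only [if_true, show (1 : Fin 3) ≠ 0 by decide, show (2 : Fin 3) ≠ 0 by decide,
      show (2 : Fin 3) ≠ 1 by decide, if_false, mul_zero, mul_one, zero_add] at e1 e2
    have hpos : (0 : ℝ) < ((b + w u : ℕ) : ℝ) / d := by
      have : (0 : ℝ) < ((b + w u : ℕ) : ℝ) := by exact_mod_cast (by omega : 0 < b + w u)
      positivity
    have hτ0 : τ = 0 := by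
      rcases mul_eq_zero.1 e2.symm with h0 | h0
      · exact h0
      · exact absurd h0 hpos.ne'
    rw [hτ0, sub_zero, one_mul, div_left_inj' hd.ne'] at e1
    have : a + u' = a + u := by exact_mod_cast e1
    omega

/-! ### The divisor bound -/

lemma log_tau_le {δ : ℝ} (hδ : 0 < δ) (hδ1 : δ * Real.log 2 ≤ 1) {n : ℕ} (hn : 1 ≤ n) :
    Real.log (n.divisors.card : ℕ) ≤ δ * Real.log n +
      (Real.exp (Real.log 2 / δ) + 1) * (-Real.log (δ * Real.log 2)) := by
  classical
  have hl2 : 0 < Real.log 2 := Real.log_pos (by norm_num)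
  set Y := Real.exp (Real.log 2 / δ) with hY
  set L := -Real.log (δ * Real.log 2) with hL
  have hc : 0 < δ * Real.log 2 := by positivity
  have hL0 : 0 ≤ L := by
    have := Real.log_nonpos hc.le hδ1
    linarith
  have hn0 : n ≠ 0 := by omega
  have h1 : Real.log (n.divisors.card : ℕ) =
      ∑ p ∈ n.primeFactors, Real.log ((n.factorization p : ℝ) + 1) := by
    rw [Nat.card_divisors hn0]
    push_cast
    rw [Real.log_prod]
    intro p _
    positivity
  have h2 : Real.log n = ∑ p ∈ n.primeFactors, (n.factorization p : ℝ) * Real.log p := by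
    conv_lhs => rw [← Nat.prod_factorization_pow_eq_self hn0]
    rw [Finsupp.prod]
    push_cast
    rw [Real.log_prod]
    · simp [Real.log_pow]
    · intro p hp
      have := (Nat.prime_of_mem_primeFactors hp).pos
      positivity
  have h3 : ∀ p ∈ n.primeFactors, Real.log ((n.factorization p : ℝ) + 1) ≤
      δ * ((n.factorization p : ℝ) * Real.log p) + (if (p : ℝ) < Y then L else 0) := by
    intro p hp
    have hp2 : (2 : ℝ) ≤ p := by exact_mod_cast (Nat.prime_of_mem_primeFactors hp).two_le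
    set e := n.factorization p
    have he : (0 : ℝ) ≤ e := by positivity
    split_ifs with h
    · have a1 : Real.log 2 ≤ Real.log p := Real.log_le_log (by norm_num) hp2
      have a2 : ((e : ℝ) + 1) * (δ * Real.log 2) ≤ Real.exp (e * (δ * Real.log 2)) := by
        have := Real.add_one_le_exp (e * (δ * Real.log 2))
        nlinarith
      have a3 := Real.log_le_log (by positivity) a2
      rw [Real.log_exp, Real.log_mul (by positivity) hc.ne'] at a3
      have a4 : e * (δ * Real.log 2) ≤ δ * (e * Real.log p) := by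
        have : (e : ℝ) * Real.log 2 ≤ e * Real.log p := mul_le_mul_of_nonneg_left a1 he
        nlinarith
      linarith
    · have a1 : Real.log 2 / δ ≤ Real.log p := by
        rw [← Real.log_exp (Real.log 2 / δ)]
        exact Real.log_le_log (Real.exp_pos _) (not_lt.1 h)
      rw [div_le_iff₀ hδ] at a1
      have a2 : ((e : ℝ) + 1) ≤ 2 ^ e := by
        have : e + 1 ≤ 2 ^ e := Nat.lt_two_pow_self
        exact_mod_cast this
      have a3 := Real.log_le_log (by positivity) a2
      rw [Real.log_pow] at a3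
      have : (e : ℝ) * Real.log 2 ≤ e * (Real.log p * δ) := mul_le_mul_of_nonneg_left a1 he
      nlinarith
  have h4 : ∑ p ∈ n.primeFactors, (if (p : ℝ) < Y then L else 0) ≤ (Y + 1) * L := by
    rw [← Finset.sum_filter, Finset.sum_const, nsmul_eq_mul]
    apply mul_le_mul_of_nonneg_right _ hL0
    have : (n.primeFactors.filter fun p : ℕ => (p : ℝ) < Y) ⊆ range ⌈Y⌉₊ := by
      intro p hp
      rw [mem_range, Nat.lt_ceil]
      exact (mem_filter.1 hp).2
    have h5 := card_le_card this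
    rw [card_range] at h5
    have h6 : (⌈Y⌉₊ : ℝ) < Y + 1 := Nat.ceil_lt_add_one (Real.exp_pos _).le
    have h7 : (((n.primeFactors.filter fun p : ℕ => (p : ℝ) < Y).card : ℕ) : ℝ) ≤ ⌈Y⌉₊ := by
      exact_mod_cast h5
    linarith
  rw [h1, h2, Finset.mul_sum]
  refine (Finset.sum_le_sum h3).trans ?_
  rw [Finset.sum_add_distrib]
  linarith

lemma log_maxTau_le {δ : ℝ} (hδ : 0 < δ) (hδ1 : δ * Real.log 2 ≤ 1) {X : ℕ} (hX : 1 ≤ X) :
    Real.log (maxTau X : ℕ) ≤ δ * Real.log X +
      (Real.exp (Real.log 2 / δ) + 1) * (-Real.log (δ * Real.log 2)) := by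
  obtain ⟨n, hn, hn'⟩ := Finset.exists_mem_eq_sup (Icc 1 X) ⟨1, mem_Icc.2 ⟨le_rfl, hX⟩⟩
    (fun m => m.divisors.card)
  unfold maxTau
  rw [hn']
  obtain ⟨h1, h2⟩ := mem_Icc.1 hn
  refine (log_tau_le hδ hδ1 h1).trans ?_
  have : Real.log n ≤ Real.log X :=
    Real.log_le_log (by exact_mod_cast h1) (by exact_mod_cast h2)
  nlinarith

/-! ### Many lines through one point -/

lemma centralBinom_le_mu (T : Affine.Triangle ℝ Plane) {d m N : ℕ}
    (hπ : 2 * m ≤ Nat.primeCounting N) (hd : 2 * N ^ m < d) :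
    (m.centralBinom : ℕ∞) ≤ mu T d := by
  classical
  have hcard : 2 * m ≤ (Nat.primesLE N).card := by rwa [Nat.primesLE_card_eq_primeCounting]
  obtain ⟨P, hP, hPc⟩ := Finset.exists_subset_card_eq hcard
  obtain ⟨S0, hS0, hS0c⟩ := Finset.exists_subset_card_eq (s := P) (n := m) (by omega)
  have hprime : ∀ p ∈ P, p.Prime := fun p hp => Nat.prime_of_mem_primesLE (hP hp)
  have hle : ∀ p ∈ P, p ≤ N := fun p hp => Nat.le_of_mem_primesLE (hP hp)
  have hbd : ∀ S ⊆ P, S.card = m → ∏ p ∈ S, p ≤ N ^ m := by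
    intro S hS hSc
    rw [← hSc]
    exact Finset.prod_le_pow_card S id N fun p hp => hle p (hS hp)
  have hpos : ∀ S ⊆ P, 1 ≤ ∏ p ∈ S, p := fun S hS =>
    Finset.prod_pos fun p hp => (hprime p (hS hp)).pos
  have hcomp : ∀ S ⊆ P, S.card = m → (P \ S).card = m := by
    intro S hS hSc
    rw [card_sdiff_of_subset hS]; omega
  have ba := hbd S0 hS0 hS0c
  have bb := hbd (P \ S0) sdiff_subset (hcomp S0 hS0 hS0c)
  have key := card_le_mu T (d := d) (hpos S0 hS0) (hpos (P \ S0) sdiff_subset) (by omega)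
    ((P.powersetCard m).image fun S => ∏ p ∈ S, p) (by
      intro u hu
      obtain ⟨S, hS, rfl⟩ := mem_image.1 hu
      obtain ⟨h1, h2⟩ := mem_powersetCard.1 hS
      have b1 := hbd S h1 h2
      have b2 := hbd (P \ S) sdiff_subset (hcomp S h1 h2)
      refine ⟨∏ p ∈ P \ S, p, ?_, by omega, by omega⟩
      rw [mul_comm, Finset.prod_sdiff h1, mul_comm, Finset.prod_sdiff hS0])
  rw [Finset.card_image_of_injOn, card_powersetCard, hPc] at key
  · rwa [Nat.centralBinom_eq_two_mul_choose]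
  · intro S hS S' hS' h
    have h1 := (mem_powersetCard.1 hS).1
    have h2 := (mem_powersetCard.1 hS').1
    have e1 := Nat.primeFactors_prod (s := S) fun p hp => hprime p (h1 hp)
    have e2 := Nat.primeFactors_prod (s := S') fun p hp => hprime p (h2 hp)
    rw [← e1, ← e2]
    exact congrArg _ h

/-! ### Asymptotics -/

open Filter Topology

lemma tendsto_loglog : Tendsto (fun d : ℕ => Real.log (Real.log d)) atTop atTop :=
  Real.tendsto_log_atTop.comp (Real.tendsto_log_atTop.comp tendsto_natCast_atTop_atTop)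

lemma tendsto_sq_exp {c : ℝ} (hc : 0 < c) :
    Tendsto (fun t : ℝ => t ^ 2 * Real.exp (-c * t)) atTop (𝓝 0) := by
  have := tendsto_rpow_mul_exp_neg_mul_atTop_nhds_zero 2 c hc
  simpa [Real.rpow_two] using this

lemma mu_ne_top (T : Affine.Triangle ℝ Plane) {d : ℕ} (hd : 1 ≤ d) : mu T d ≠ ⊤ :=
  ne_top_of_le_ne_top (ENat.natCast_ne_top _) (mu_le T hd)

lemma toNat_mu_le (T : Affine.Triangle ℝ Plane) {d : ℕ} (hd : 1 ≤ d) :
    (mu T d).toNat ≤ 6 * maxTau (d ^ 2) :=
  ENat.toNat_le_of_le_natCast (mu_le T hd)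

lemma le_toNat_mu (T : Affine.Triangle ℝ Plane) {d k : ℕ} (hd : 1 ≤ d) (h : (k : ℕ∞) ≤ mu T d) :
    k ≤ (mu T d).toNat := by
  simpa using ENat.toNat_le_toNat h (mu_ne_top T hd)

lemma log_nat_le {k l : ℕ} (h : k ≤ l) : Real.log k ≤ Real.log l := by
  rcases Nat.eq_zero_or_pos k with rfl | hk
  · simpa using Real.log_natCast_nonneg l
  · exact Real.log_le_log (by exact_mod_cast hk) (by exact_mod_cast h)

lemma eventually_upper (T : Affine.Triangle ℝ Plane) {a : ℝ} (ha : Real.log 4 < a) :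
    ∀ᶠ d : ℕ in atTop,
      Real.log ((mu T d).toNat : ℕ) * Real.log (Real.log d) / Real.log d < a := by
  have hl2 : 0.69 < Real.log 2 := by linarith [Real.log_two_gt_d9]
  have hl2' : Real.log 2 < 0.7 := by linarith [Real.log_two_lt_d9]
  have hl4 : Real.log 4 = 2 * Real.log 2 := by
    rw [show (4 : ℝ) = 2 ^ 2 by norm_num, Real.log_pow]; norm_num
  set b := (Real.log 4 + a) / 2 with hb
  have hb1 : Real.log 4 < b := by linarith
  have hb0 : 0 < b := by linarith
  set c := Real.log 4 / b with hc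
  have hc0 : 0 < c := div_pos (by linarith) hb0
  have hc1 : c < 1 := (div_lt_one hb0).2 hb1
  have hcb : c * b = 2 * Real.log 2 := by rw [hc, ← hl4]; field_simp
  have e1 : ∀ᶠ t : ℝ in atTop, t ^ 2 * Real.exp (-(1 - c) * t) < (a - b) / 12 :=
    (tendsto_sq_exp (by linarith)).eventually (gt_mem_nhds (by linarith))
  filter_upwards [tendsto_loglog.eventually e1, tendsto_loglog.eventually_ge_atTop (1 / c),
    tendsto_loglog.eventually_ge_atTop 1, eventually_ge_atTop 2] with d h1 h2 h3 h4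
  set t := Real.log (Real.log d) with ht
  have hd1 : (1 : ℝ) < d := by exact_mod_cast h4
  have hL : 0 < Real.log d := Real.log_pos hd1
  have hLt : Real.log d = Real.exp t := (Real.exp_log hL).symm
  have ht0 : 0 < t := by linarith
  have hct : 1 ≤ c * t := by rw [div_le_iff₀ hc0] at h2; linarith
  set δ := Real.log 2 / (c * t) with hδ
  have hδ0 : 0 < δ := by positivity
  have hδe : δ * (c * t) = Real.log 2 := by rw [hδ]; field_simp
  have hδ1 : δ * Real.log 2 ≤ 1 := by nlinarith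
  have key := log_maxTau_le hδ0 hδ1 (X := d ^ 2) (Nat.one_le_pow _ _ (by omega))
  have hY : Real.log 2 / δ = c * t := by rw [hδ]; field_simp
  have hLL : -Real.log (δ * Real.log 2) ≤ 3 * t := by
    rw [← Real.log_inv]
    have := Real.log_le_sub_one_of_pos (x := (δ * Real.log 2)⁻¹) (by positivity)
    have h5 : (δ * Real.log 2)⁻¹ ≤ 3 * t := by
      rw [inv_le_iff_one_le_mul₀ (by positivity)]
      have h6 : Real.log 2 ≤ δ * t := by nlinarith
      nlinarith
    linarith
  rw [hY] at key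
  have hE1 : 1 ≤ Real.exp (c * t) := Real.one_le_exp (by linarith)
  have hM : (1 : ℝ) ≤ (maxTau (d ^ 2) : ℕ) := by
    exact_mod_cast one_le_maxTau (Nat.one_le_pow _ _ (by omega))
  have h6 : Real.log ((mu T d).toNat : ℕ) ≤ 5 + Real.log (maxTau (d ^ 2) : ℕ) := by
    refine (log_nat_le (toNat_mu_le T (by omega))).trans ?_
    push_cast
    rw [Real.log_mul (by norm_num) (by positivity)]
    have := Real.log_le_sub_one_of_pos (x := 6) (by norm_num)
    linarith
  have h7 : Real.log ((d ^ 2 : ℕ) : ℝ) = 2 * Real.exp t := by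
    push_cast; rw [Real.log_pow, hLt]; norm_num
  rw [h7] at key
  have h8 : (Real.exp (c * t) + 1) * -Real.log (δ * Real.log 2) ≤ 6 * t * Real.exp (c * t) := by
    have : (Real.exp (c * t) + 1) * -Real.log (δ * Real.log 2) ≤
        (Real.exp (c * t) + 1) * (3 * t) := mul_le_mul_of_nonneg_left hLL (by positivity)
    nlinarith
  have h9 : Real.log ((mu T d).toNat : ℕ) ≤ δ * (2 * Real.exp t) + 11 * t * Real.exp (c * t) := by
    nlinarith
  have hδt : δ * 2 * t = b := by
    apply mul_left_cancel₀ hc0.ne'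
    linear_combination 2 * hδe - hcb
  have h10 : Real.exp (c * t) = Real.exp (-(1 - c) * t) * Real.exp t := by
    rw [← Real.exp_add]; congr 1; ring
  rw [div_lt_iff₀ hL, hLt]
  have hE : 0 < Real.exp t := Real.exp_pos _
  have h11 : Real.log ((mu T d).toNat : ℕ) * t ≤
      (b + 11 * (t ^ 2 * Real.exp (-(1 - c) * t))) * Real.exp t := by
    refine (mul_le_mul_of_nonneg_right h9 ht0.le).trans (le_of_eq ?_)
    rw [h10, ← hδt]; ring
  refine h11.trans_lt (mul_lt_mul_of_pos_right ?_ hE)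
  linarith

lemma eventually_cheb : ∀ᶠ y : ℝ in atTop, y / 2 ≤ (y - 1) * Real.log 2 - Real.log (y + 2) := by
  have hl2 : 0.69 < Real.log 2 := by linarith [Real.log_two_gt_d9]
  have hl2' : Real.log 2 < 0.7 := by linarith [Real.log_two_lt_d9]
  filter_upwards [eventually_ge_atTop 1000] with y hy
  have h1 : Real.log (y + 2) = Real.log ((y + 2) / 32) + 5 * Real.log 2 := by
    rw [Real.log_div (by linarith) (by norm_num), show (32 : ℝ) = 2 ^ 5 by norm_num, Real.log_pow]
    norm_num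
  have h2 := Real.log_le_sub_one_of_pos (x := (y + 2) / 32) (by linarith)
  nlinarith

lemma eventually_lower (T : Affine.Triangle ℝ Plane) {a : ℝ} (ha : a < Real.log 4) :
    ∀ᶠ d : ℕ in atTop,
      a < Real.log ((mu T d).toNat : ℕ) * Real.log (Real.log d) / Real.log d := by
  have hl2 : 0.69 < Real.log 2 := by linarith [Real.log_two_gt_d9]
  have hl2' : Real.log 2 < 0.7 := by linarith [Real.log_two_lt_d9]
  have hl4 : Real.log 4 = 2 * Real.log 2 := by
    rw [show (4 : ℝ) = 2 ^ 2 by norm_num, Real.log_pow]; norm_num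
  obtain ⟨b, hb0, hb1, hb2⟩ : ∃ b : ℝ, 0 < b ∧ a < b ∧ b < Real.log 4 := by
    refine ⟨(max a 0 + Real.log 4) / 2, ?_, ?_, ?_⟩
    · linarith [le_max_right a 0]
    · linarith [le_max_left a 0, max_lt ha (by linarith : (0 : ℝ) < Real.log 4)]
    · linarith [max_lt ha (by linarith : (0 : ℝ) < Real.log 4)]
  set c := Real.log 4 / b with hc
  have hc1 : 1 < c := (one_lt_div hb0).2 hb2
  have hcb : c * b = Real.log 4 := by rw [hc]; field_simp
  have e1 : ∀ᶠ t : ℝ in atTop, t ^ 2 * Real.exp (-1 * t) < (b - a) / 7 :=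
    (tendsto_sq_exp (by linarith)).eventually (gt_mem_nhds (by linarith))
  have e2 : ∀ᶠ t : ℝ in atTop, t ^ 2 * Real.exp (-1 * t) < 1 / (c + 2) :=
    (tendsto_sq_exp (by linarith)).eventually (gt_mem_nhds (by positivity))
  have e3 : ∀ᶠ t : ℝ in atTop, Real.exp (c * t) / 2 ≤ (Real.exp (c * t) - 1) * Real.log 2 -
      Real.log (Real.exp (c * t) + 2) :=
    (Real.tendsto_exp_atTop.comp (tendsto_id.const_mul_atTop (by linarith : 0 < c))).eventually
      eventually_cheb
  filter_upwards [tendsto_loglog.eventually e1, tendsto_loglog.eventually e2,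
    tendsto_loglog.eventually e3, tendsto_loglog.eventually_ge_atTop (3 / (c - 1)),
    tendsto_loglog.eventually_ge_atTop 1, eventually_ge_atTop 2] with d h1 h2 h3 h4 h5 h6
  set t := Real.log (Real.log d) with ht
  have hd1 : (1 : ℝ) < d := by exact_mod_cast h6
  have hL : 0 < Real.log d := Real.log_pos hd1
  have hLt : Real.log d = Real.exp t := (Real.exp_log hL).symm
  have ht0 : 0 < t := by linarith
  have hE : 0 < Real.exp t := Real.exp_pos _
  have hEE : Real.exp (-1 * t) * Real.exp t = 1 := by rw [← Real.exp_add]; simp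
  have hct : 1 ≤ c * t := by nlinarith
  have hbig : c * t + 2 ≤ Real.exp t := by
    rw [lt_div_iff₀ (by linarith)] at h2
    have h7 : t ^ 2 * (c + 2) ≤ Real.exp t := by
      have := mul_le_mul_of_nonneg_right h2.le hE.le
      calc t ^ 2 * (c + 2) = t ^ 2 * (c + 2) * (Real.exp (-1 * t) * Real.exp t) := by
            rw [hEE, mul_one]
        _ = t ^ 2 * Real.exp (-1 * t) * (c + 2) * Real.exp t := by ring
        _ ≤ Real.exp t := by linarith
    have h8 : t ≤ t ^ 2 := by nlinarith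
    nlinarith
  set y := Real.exp (c * t) with hy
  have hy1 : 1 < y := Real.one_lt_exp_iff.2 (by linarith)
  have hlogy : Real.log y = c * t := Real.log_exp _
  set m := ⌊(Real.exp t - 2) / (c * t)⌋₊ with hm
  have hq1 : 1 ≤ (Real.exp t - 2) / (c * t) := by
    rw [le_div_iff₀ (by linarith)]; linarith
  have hm1 : 1 ≤ m := Nat.le_floor (by exact_mod_cast hq1)
  have hm2 : (m : ℝ) * (c * t) ≤ Real.exp t - 2 := by
    rw [← le_div_iff₀ (by linarith)]; exact Nat.floor_le (by linarith)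
  have hm3 : Real.exp t - 2 < ((m : ℝ) + 1) * (c * t) := by
    rw [← div_lt_iff₀ (by linarith)]; exact Nat.lt_floor_add_one _
  have hm0 : (0 : ℝ) ≤ m := by positivity
  have hy4 : 4 * Real.exp t ≤ y := by
    have h7 : 3 ≤ (c - 1) * t := by rw [div_le_iff₀ (by linarith)] at h4; linarith
    have h8 := Real.add_one_le_exp ((c - 1) * t)
    have h9 : y = Real.exp ((c - 1) * t) * Real.exp t := by
      rw [hy, ← Real.exp_add]; congr 1; ring
    rw [h9]
    exact mul_le_mul_of_nonneg_right (by linarith) hE.le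
  have hπ : 2 * m ≤ Nat.primeCounting ⌊y⌋₊ := by
    have h7 := Chebyshev.pi_ge' hy1
    rw [hlogy] at h7
    have h8 : (2 * m : ℝ) ≤ ((y - 1) * Real.log 2 - Real.log (y + 2)) / (c * t) := by
      rw [le_div_iff₀ (by linarith)]; nlinarith
    exact_mod_cast h8.trans h7
  have hd : 2 * ⌊y⌋₊ ^ m < d := by
    have h7 : ((⌊y⌋₊ : ℕ) : ℝ) ^ m ≤ y ^ m :=
      pow_le_pow_left₀ (by positivity) (Nat.floor_le (by linarith)) m
    have h8 : y ^ m ≤ Real.exp (Real.exp t - 2) := by
      rw [hy, ← Real.exp_nat_mul]; exact Real.exp_le_exp.2 hm2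
    have h9 : Real.exp (Real.exp t - 2) * Real.exp 2 = d := by
      rw [← Real.exp_add, sub_add_cancel, ← hLt, Real.exp_log (by linarith)]
    have h10 := Real.add_one_le_exp (2 : ℝ)
    have h11 := Real.exp_pos (Real.exp t - 2)
    have : (2 : ℝ) * ((⌊y⌋₊ : ℕ) : ℝ) ^ m < d := by nlinarith
    exact_mod_cast this
  have key := le_toNat_mu T (by omega) (centralBinom_le_mu T hπ hd)
  have k2 : 4 ^ m ≤ 2 * m * (mu T d).toNat :=
    (Nat.four_pow_le_two_mul_self_mul_centralBinom m hm1).trans (Nat.mul_le_mul_left _ key)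
  have hmu : 0 < (mu T d).toNat := lt_of_lt_of_le (Nat.centralBinom_pos m) key
  have k3 := log_nat_le k2
  push_cast at k3
  rw [Real.log_pow, Real.log_mul (by positivity) (by positivity),
    Real.log_mul (by norm_num) (by positivity)] at k3
  have k4 : Real.log m ≤ t := by
    rw [← Real.log_exp t]
    apply Real.log_le_log (by exact_mod_cast hm1)
    nlinarith
  have k5 : b * (Real.exp t - 2) ≤ ((m : ℝ) + 1) * t * Real.log 4 := by
    rw [← hcb]
    have := mul_le_mul_of_nonneg_left hm3.le hb0.le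
    linarith
  rw [lt_div_iff₀ hL, hLt]
  have k6 : 7 * t ^ 2 < (b - a) * Real.exp t := by
    have := mul_lt_mul_of_pos_right h1 hE
    calc 7 * t ^ 2 = 7 * t ^ 2 * (Real.exp (-1 * t) * Real.exp t) := by rw [hEE, mul_one]
      _ = 7 * (t ^ 2 * Real.exp (-1 * t) * Real.exp t) := by ring
      _ < _ := by linarith
  have k7 : (m * Real.log 4 - Real.log 2 - t) * t ≤ Real.log ((mu T d).toNat : ℕ) * t :=
    mul_le_mul_of_nonneg_right (by linarith) ht0.le
  have k8 : t ≤ t ^ 2 := by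
    rw [pow_two]; exact le_mul_of_one_le_left ht0.le h5
  have k9 : t * Real.log 4 ≤ t * 2 := mul_le_mul_of_nonneg_left (by linarith) ht0.le
  have k10 : t * Real.log 2 ≤ t * 1 := mul_le_mul_of_nonneg_left (by linarith) ht0.le
  have k11 : (m * Real.log 4 - Real.log 2 - t) * t =
      ((m : ℝ) + 1) * t * Real.log 4 - t * Real.log 4 - t * Real.log 2 - t ^ 2 := by ring
  have k12 : b * (Real.exp t - 2) = b * Real.exp t - 2 * b := by ring
  have k13 : (b - a) * Real.exp t = b * Real.exp t - a * Real.exp t := by ring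
  linarith

theorem tendsto_log_mu (T : Affine.Triangle ℝ Plane) :
    Tendsto (fun d : ℕ => Real.log ((mu T d).toNat : ℕ) * Real.log (Real.log d) / Real.log d)
      atTop (𝓝 (Real.log 4)) :=
  tendsto_order.2 ⟨fun _ ha => eventually_lower T ha, fun _ ha => eventually_upper T ha⟩

end Pool.Agent.Lib.MP_c789b2_co
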